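import Mathlib

set_option autoImplicit false

open Polynomial Finset

namespace Pool.Agent.Results.MP_1639aa_nt.FullSpectrum

/-! ### Definitions -/

section defs

open Filter

/-- The height of an integer polynomial: the largest absolute value of its coefficients. -/
def ht (P : ℤ[X]) : ℕ := P.support.sup fun i => (P.coeff i).natAbs

/-- The exponent `w_n(z)`: the supremum of the real `v` such that `|P(z)| ≤ H(P)^(-v)` for
infinitely many nonzero integer polynomials of degree at most `n`. -/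
noncomputable def wExp (n : ℕ) (z : ℝ) : EReal :=
  sSup ((fun v : ℝ => (v : EReal)) '' {v : ℝ | {P : ℤ[X] | P ≠ 0 ∧ P.natDegree ≤ n ∧
    |aeval z P| ≤ (ht P : ℝ) ^ (-v)}.Infinite})

/-- The exponent `w_n^*(z)`: the supremum of the real `v` such that `|z - a| ≤ H(a)^(-v-1)` for
infinitely many algebraic numbers `a ∈ A` of degree at most `n`. The height of `a` is that of its
minimal polynomial over `ℤ` (irreducible and primitive). With `A = Set.univ` all complex algebraic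
numbers are allowed, with `A = ℝ` only the real ones. -/
noncomputable def wStar (A : Set ℂ) (n : ℕ) (z : ℝ) : EReal :=
  sSup ((fun v : ℝ => (v : EReal)) '' {v : ℝ | {a : ℂ | a ∈ A ∧ ∃ P : ℤ[X], Irreducible P ∧
    P.IsPrimitive ∧ aeval a P = 0 ∧ P.natDegree ≤ n ∧
      ‖(z : ℂ) - a‖ ≤ (ht P : ℝ) ^ (-v - 1)}.Infinite})

/-- The uniform exponent for monic polynomials: the supremum of the real `v` such that for every
sufficiently large `X` there is a monic integer polynomial `P` of degree at most `n` with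
`H(P) ≤ X` and `|P(z)| ≤ X^(-v)`. -/
noncomputable def hatInt (n : ℕ) (z : ℝ) : EReal :=
  sSup ((fun v : ℝ => (v : EReal)) '' {v : ℝ | ∀ᶠ X : ℝ in atTop, ∃ P : ℤ[X], P.Monic ∧
    P.natDegree ≤ n ∧ (ht P : ℝ) ≤ X ∧ |aeval z P| ≤ X ^ (-v)})

/-- The uniform exponent for algebraic integers: the supremum of the real `v` such that for every
sufficiently large `X` there is an algebraic integer `a ∈ A` of degree at most `n` with
`H(a) ≤ X` and `|z - a| ≤ H(a)^(-1) X^(-v)`; here `P` is the (monic, irreducible) minimal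
polynomial of `a`. -/
noncomputable def hatStarInt (A : Set ℂ) (n : ℕ) (z : ℝ) : EReal :=
  sSup ((fun v : ℝ => (v : EReal)) '' {v : ℝ | ∀ᶠ X : ℝ in atTop, ∃ a ∈ A, ∃ P : ℤ[X], P.Monic ∧
    Irreducible P ∧ aeval a P = 0 ∧ P.natDegree ≤ n ∧ (ht P : ℝ) ≤ X ∧
      ‖(z : ℂ) - a‖ ≤ (ht P : ℝ)⁻¹ * X ^ (-v)})

/-- `z` lies in `D_{n,w}`: `w_1(z) = w_1^*(z) = w_2(z) = ... = w_n(z) = w_n^*(z) = w`. -/
def InD (A : Set ℂ) (n : ℕ) (w : ℝ) (z : ℝ) : Prop :=
  ∀ m : ℕ, 1 ≤ m → m ≤ n → wExp m z = (w : EReal) ∧ wStar A m z = (w : EReal)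

end defs

/-! ### Polynomials -/

lemma natAbs_coeff_le (P : ℤ[X]) (i : ℕ) : (P.coeff i).natAbs ≤ ht P := by
  by_cases h : P.coeff i = 0
  · simp [h]
  · exact Finset.le_sup (f := fun i => (P.coeff i).natAbs) (mem_support_iff.mpr h)

lemma abs_coeff_le (P : ℤ[X]) (i : ℕ) : |(P.coeff i : ℝ)| ≤ ht P := by
  have h := natAbs_coeff_le P i
  have h2 : ((P.coeff i).natAbs : ℝ) ≤ ht P := by exact_mod_cast h
  rwa [Nat.cast_natAbs, Int.cast_abs] at h2

lemma ht_le_nat {P : ℤ[X]} {B : ℕ} (h : ∀ i, (P.coeff i).natAbs ≤ B) : ht P ≤ B :=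
  Finset.sup_le fun i _ => h i

lemma ht_le {P : ℤ[X]} {B : ℝ} (h : ∀ i, |(P.coeff i : ℝ)| ≤ B) : (ht P : ℝ) ≤ B := by
  have hB : 0 ≤ B := (abs_nonneg _).trans (h 0)
  have h1 : ht P ≤ ⌊B⌋₊ := ht_le_nat fun i => by
    rw [Nat.le_floor_iff hB, Nat.cast_natAbs, Int.cast_abs]
    exact h i
  exact (Nat.cast_le.mpr h1).trans (Nat.floor_le hB)

lemma ht_pos {P : ℤ[X]} (h : P ≠ 0) : 1 ≤ ht P := by
  have h1 : P.leadingCoeff ≠ 0 := leadingCoeff_ne_zero.mpr h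
  have h2 := natAbs_coeff_le P P.natDegree
  have h3 : 0 < (P.coeff P.natDegree).natAbs := Int.natAbs_pos.mpr h1
  omega

lemma one_le_ht {P : ℤ[X]} (h : P ≠ 0) : (1 : ℝ) ≤ ht P := by exact_mod_cast ht_pos h

lemma finite_ht (n B : ℕ) : {P : ℤ[X] | P.natDegree ≤ n ∧ ht P ≤ B}.Finite := by
  have hfin : (Set.univ.pi (fun _ : Fin (n+1) => Set.Icc (-(B:ℤ)) B)).Finite :=
    Set.Finite.pi (fun _ => Set.finite_Icc _ _)
  refine Set.Finite.of_injOn (f := fun P : ℤ[X] => fun i : Fin (n+1) => P.coeff i)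
    (t := Set.univ.pi (fun _ : Fin (n+1) => Set.Icc (-(B:ℤ)) B)) ?_ ?_ hfin
  · rintro P ⟨hP1, hP2⟩ i -
    have h := natAbs_coeff_le P i
    show P.coeff i ∈ Set.Icc (-(B:ℤ)) B
    rw [Set.mem_Icc]
    constructor <;> omega
  · rintro P ⟨hP1, hP2⟩ Q ⟨hQ1, hQ2⟩ h
    ext i
    by_cases hi : i < n + 1
    · exact congrFun h ⟨i, hi⟩
    · rw [coeff_eq_zero_of_natDegree_lt (by omega), coeff_eq_zero_of_natDegree_lt (by omega)]

lemma aeval_real_eq {P : ℤ[X]} {n : ℕ} (h : P.natDegree ≤ n) (x : ℝ) :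
    aeval x P = ∑ i ∈ range (n+1), (P.coeff i : ℝ) * x ^ i := by
  rw [aeval_eq_sum_range' (Nat.lt_succ_of_le h)]
  simp [zsmul_eq_mul]

lemma aeval_complex_eq {P : ℤ[X]} {n : ℕ} (h : P.natDegree ≤ n) (x : ℂ) :
    aeval x P = ∑ i ∈ range (n+1), (P.coeff i : ℂ) * x ^ i := by
  rw [aeval_eq_sum_range' (Nat.lt_succ_of_le h)]
  simp [zsmul_eq_mul]

lemma aeval_ofReal (P : ℤ[X]) (x : ℝ) : aeval (x : ℂ) P = ((aeval x P : ℝ) : ℂ) := by
  rw [aeval_real_eq le_rfl, aeval_complex_eq le_rfl]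
  push_cast
  rfl

lemma derivative_real_eq {P : ℤ[X]} {n : ℕ} (h : P.natDegree ≤ n) (x : ℝ) :
    aeval x (derivative P) = ∑ i ∈ range (n+1), (P.coeff i : ℝ) * (i * x ^ (i-1)) := by
  conv_lhs => rw [P.as_sum_range' (n+1) (Nat.lt_succ_of_le h)]
  rw [derivative_sum, map_sum]
  refine Finset.sum_congr rfl fun i _ => ?_
  rw [derivative_monomial, aeval_monomial]
  simp [mul_assoc]

lemma pow_sub_pow_le {x y : ℂ} (hx : ‖x‖ ≤ 2) (hy : ‖y‖ ≤ 2) (i : ℕ) :
    ‖x ^ i - y ^ i‖ ≤ i * 2 ^ i * ‖x - y‖ := by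
  induction i with
  | zero => simp
  | succ i ih =>
    have h1 : x ^ (i+1) - y ^ (i+1) = x * (x ^ i - y ^ i) + y ^ i * (x - y) := by ring
    rw [h1]
    have h2 : ‖y ^ i‖ ≤ 2 ^ i := by
      rw [norm_pow]; exact pow_le_pow_left₀ (norm_nonneg _) hy _
    calc ‖x * (x ^ i - y ^ i) + y ^ i * (x - y)‖
        ≤ ‖x‖ * ‖x ^ i - y ^ i‖ + ‖y ^ i‖ * ‖x - y‖ := by
          refine (norm_add_le _ _).trans ?_
          rw [norm_mul, norm_mul]
      _ ≤ 2 * (i * 2 ^ i * ‖x - y‖) + 2 ^ i * ‖x - y‖ := by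
          gcongr
      _ ≤ ((i + 1 : ℕ) : ℝ) * 2 ^ (i+1) * ‖x - y‖ := by
          push_cast
          have h3 : (0:ℝ) ≤ 2 ^ i * ‖x - y‖ := by positivity
          rw [pow_succ]
          nlinarith

/-- Lipschitz constant. -/
noncomputable def K1 (n : ℕ) : ℝ := (n+1) * (n * 2 ^ n)

lemma K1_nonneg (n : ℕ) : 0 ≤ K1 n := by unfold K1; positivity

lemma aeval_sub_le {P : ℤ[X]} {n : ℕ} (h : P.natDegree ≤ n) {x y : ℂ}
    (hx : ‖x‖ ≤ 2) (hy : ‖y‖ ≤ 2) :
    ‖aeval x P - aeval y P‖ ≤ K1 n * ht P * ‖x - y‖ := by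
  rw [aeval_complex_eq h, aeval_complex_eq h, ← Finset.sum_sub_distrib]
  refine (norm_sum_le _ _).trans ?_
  have h1 : ∀ i ∈ range (n+1), ‖(P.coeff i : ℂ) * x ^ i - (P.coeff i : ℂ) * y ^ i‖
      ≤ (n * 2 ^ n) * ht P * ‖x - y‖ := by
    intro i hi
    have hi' : i ≤ n := Nat.lt_succ_iff.mp (mem_range.mp hi)
    rw [← mul_sub, norm_mul, Complex.norm_intCast]
    calc |(P.coeff i : ℝ)| * ‖x ^ i - y ^ i‖ ≤ ht P * (i * 2 ^ i * ‖x - y‖) := by
          gcongr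
          · exact abs_coeff_le P i
          · exact pow_sub_pow_le hx hy i
      _ ≤ ht P * (n * 2 ^ n * ‖x - y‖) := by
          gcongr
          · norm_num
      _ = _ := by ring
  refine (Finset.sum_le_sum h1).trans ?_
  rw [Finset.sum_const, card_range, nsmul_eq_mul]
  unfold K1
  push_cast
  apply le_of_eq
  ring

lemma aeval_sub_le_real {P : ℤ[X]} {n : ℕ} (h : P.natDegree ≤ n) {x y : ℝ}
    (hx : |x| ≤ 2) (hy : |y| ≤ 2) :
    |aeval x P - aeval y P| ≤ K1 n * ht P * |x - y| := by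
  have h1 := aeval_sub_le h (x := (x:ℂ)) (y := (y:ℂ)) (by simpa using hx) (by simpa using hy)
  rw [aeval_ofReal, aeval_ofReal, ← Complex.ofReal_sub, ← Complex.ofReal_sub,
    Complex.norm_real, Complex.norm_real] at h1
  exact h1

lemma taylor_pow_le {x y : ℝ} (hx : |x| ≤ 2) (hy : |y| ≤ 2) (i : ℕ) :
    |x ^ i - y ^ i - i * y ^ (i-1) * (x - y)| ≤ i ^ 2 * 2 ^ i * |x - y| ^ 2 := by
  induction i with
  | zero => simp
  | succ i ih =>
    have h1 : x ^ (i+1) - y ^ (i+1) - ((i+1 : ℕ):ℝ) * y ^ (i + 1 - 1) * (x - y)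
        = x * (x ^ i - y ^ i - i * y ^ (i-1) * (x - y)) + i * y ^ (i-1) * (x - y) ^ 2 := by
      rcases Nat.eq_zero_or_pos i with rfl | hi
      · simp
      · obtain ⟨j, rfl⟩ := Nat.exists_eq_add_of_le' hi
        simp only [Nat.add_sub_cancel]
        push_cast
        ring
    rw [h1]
    have h2 : |y| ^ (i-1) ≤ 2 ^ i :=
      (pow_le_pow_left₀ (abs_nonneg _) hy _).trans
        (pow_le_pow_right₀ (by norm_num) (Nat.sub_le _ _))
    calc |x * (x ^ i - y ^ i - i * y ^ (i-1) * (x - y)) + i * y ^ (i-1) * (x - y) ^ 2|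
        ≤ |x| * |x ^ i - y ^ i - i * y ^ (i-1) * (x - y)| + i * |y| ^ (i-1) * |x - y| ^ 2 := by
          refine (abs_add_le _ _).trans ?_
          rw [abs_mul, abs_mul, abs_mul, abs_pow, abs_pow, Nat.abs_cast]
      _ ≤ 2 * (i ^ 2 * 2 ^ i * |x - y| ^ 2) + i * 2 ^ i * |x - y| ^ 2 := by
          gcongr
      _ ≤ ((i + 1 : ℕ) : ℝ) ^ 2 * 2 ^ (i+1) * |x - y| ^ 2 := by
          push_cast
          have h3 : (0:ℝ) ≤ 2 ^ i * |x - y| ^ 2 := by positivity
          have h4 : (0:ℝ) ≤ (i:ℝ) := Nat.cast_nonneg _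
          have h5 : (0:ℝ) ≤ i * (2 ^ i * |x - y| ^ 2) := mul_nonneg h4 h3
          rw [pow_succ (2:ℝ) i]
          nlinarith

/-- Second order constant. -/
noncomputable def K2 (n : ℕ) : ℝ := (n+1) * (n ^ 2 * 2 ^ n)

lemma K2_nonneg (n : ℕ) : 0 ≤ K2 n := by unfold K2; positivity

lemma taylor_le {P : ℤ[X]} {n : ℕ} (h : P.natDegree ≤ n) {x y : ℝ}
    (hx : |x| ≤ 2) (hy : |y| ≤ 2) :
    |aeval x P - aeval y P - aeval y (derivative P) * (x - y)| ≤ K2 n * ht P * |x - y| ^ 2 := by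
  rw [aeval_real_eq h, aeval_real_eq h, derivative_real_eq h, ← Finset.sum_sub_distrib,
    Finset.sum_mul, ← Finset.sum_sub_distrib]
  refine (Finset.abs_sum_le_sum_abs _ _).trans ?_
  have h1 : ∀ i ∈ range (n+1), |(P.coeff i : ℝ) * x ^ i - (P.coeff i : ℝ) * y ^ i
      - (P.coeff i : ℝ) * (i * y ^ (i-1)) * (x - y)| ≤ (n ^ 2 * 2 ^ n) * ht P * |x - y| ^ 2 := by
    intro i hi
    have hi' : i ≤ n := Nat.lt_succ_iff.mp (mem_range.mp hi)
    have h2 : (P.coeff i : ℝ) * x ^ i - (P.coeff i : ℝ) * y ^ i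
      - (P.coeff i : ℝ) * (i * y ^ (i-1)) * (x - y)
      = (P.coeff i : ℝ) * (x ^ i - y ^ i - i * y ^ (i-1) * (x - y)) := by ring
    rw [h2, abs_mul]
    calc |(P.coeff i : ℝ)| * |x ^ i - y ^ i - i * y ^ (i-1) * (x - y)|
        ≤ ht P * (i ^ 2 * 2 ^ i * |x - y| ^ 2) := by
          gcongr
          · exact abs_coeff_le P i
          · exact taylor_pow_le hx hy i
      _ ≤ ht P * (n ^ 2 * 2 ^ n * |x - y| ^ 2) := by
          gcongr
          · norm_num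
      _ = _ := by ring
  refine (Finset.sum_le_sum h1).trans ?_
  rw [Finset.sum_const, card_range, nsmul_eq_mul]
  unfold K2
  push_cast
  apply le_of_eq
  ring

lemma derivative_le {P : ℤ[X]} {n : ℕ} (h : P.natDegree ≤ n) {y : ℝ} (hy : |y| ≤ 2) :
    |aeval y (derivative P)| ≤ K1 n * ht P := by
  rw [derivative_real_eq h]
  refine (Finset.abs_sum_le_sum_abs _ _).trans ?_
  have h1 : ∀ i ∈ range (n+1), |(P.coeff i : ℝ) * (i * y ^ (i-1))| ≤ (n * 2 ^ n) * ht P := by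
    intro i hi
    have hi' : i ≤ n := Nat.lt_succ_iff.mp (mem_range.mp hi)
    rw [abs_mul, abs_mul, abs_pow, Nat.abs_cast]
    calc |(P.coeff i : ℝ)| * (i * |y| ^ (i-1)) ≤ ht P * (n * 2 ^ n) := by
          have h3 : |y| ^ (i-1) ≤ 2 ^ n := by
            refine (pow_le_pow_left₀ (abs_nonneg _) hy _).trans
              (pow_le_pow_right₀ (by norm_num) ?_)
            omega
          have h4 : (i:ℝ) ≤ n := by exact_mod_cast hi'
          gcongr
          exact abs_coeff_le P i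
      _ = _ := by ring
  refine (Finset.sum_le_sum h1).trans ?_
  rw [Finset.sum_const, card_range, nsmul_eq_mul]
  unfold K1
  push_cast
  apply le_of_eq
  ring

/-- A real root near a point where the value is small compared with the derivative. -/
lemma exists_real_root {P : ℤ[X]} {n : ℕ} (h : P.natDegree ≤ n) {z D : ℝ} (hz : |z| ≤ 1)
    (hD : 0 < D) (hDz : D ≤ |aeval z (derivative P)|) (h1 : 2 * |aeval z P| ≤ D)
    (h2 : 4 * K2 n * ht P * |aeval z P| < D ^ 2) :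
    ∃ a : ℝ, aeval a P = 0 ∧ |z - a| ≤ 2 * |aeval z P| / D := by
  by_cases h0 : aeval z P = 0
  · exact ⟨z, h0, by simp [h0]⟩
  set v := |aeval z P| with hv
  have hvpos : 0 < v := abs_pos.mpr h0
  set d := aeval z (derivative P) with hd
  have hdne : d ≠ 0 := by
    intro h; rw [h, abs_zero] at hDz; linarith
  have hdpos : 0 < |d| := lt_of_lt_of_le hD hDz
  set r := 2 * v / |d| with hr
  have hrpos : 0 < r := by positivity
  have hrD : r ≤ 2 * v / D := by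
    rw [hr]; gcongr
  have hr1 : r ≤ 1 := by
    refine hrD.trans ?_
    rw [div_le_one hD]; exact h1
  -- error bound
  have herr : ∀ s : ℝ, |s| = r → |aeval (z + s) P - aeval z P - d * s| < v := by
    intro s hs
    have hb : |z + s| ≤ 2 := (abs_add_le _ _).trans (by rw [hs]; linarith)
    have ht' := taylor_le h hb (by linarith : |z| ≤ 2)
    rw [show z + s - z = s by ring, hs] at ht'
    refine ht'.trans_lt ?_
    have h3 : K2 n * ht P * r ^ 2 ≤ K2 n * ht P * (2 * v / D) ^ 2 := by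
      have := K2_nonneg n
      gcongr
    refine h3.trans_lt ?_
    rw [div_pow, mul_div_assoc', div_lt_iff₀ (by positivity)]
    calc K2 n * ht P * (2 * v) ^ 2 = v * (4 * K2 n * ht P * v) := by ring
      _ < v * D ^ 2 := by
        exact mul_lt_mul_of_pos_left h2 hvpos
  have hcont : Continuous fun x : ℝ => aeval x P := P.continuous_aeval
  have hprod : d * r = 2 * v ∨ d * r = -(2 * v) := by
    rcases abs_choice d with h' | h'
    · left
      rw [hr, h']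
      field_simp
    · right
      rw [hr, h']
      field_simp
  have e1 := herr r (abs_of_pos hrpos)
  have e2 := herr (-r) (by rw [abs_neg, abs_of_pos hrpos])
  have hv2 : aeval z P = v ∨ aeval z P = -v := by
    rcases abs_choice (aeval z P) with h' | h' <;> rw [hv]
    · left; exact h'.symm
    · right; rw [h']; ring
  rw [abs_lt] at e1 e2
  have hsub : Set.uIcc (z + -r) (z + r) ⊆ {a | |z - a| ≤ r} := by
    intro a ha
    rw [Set.uIcc_of_le (by linarith), Set.mem_Icc] at ha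
    simp only [Set.mem_ofPred_eq]
    rw [abs_le]
    constructor <;> linarith [ha.1, ha.2]
  have hmain : (0:ℝ) ∈ Set.uIcc (aeval (z + -r) P) (aeval (z + r) P) := by
    rw [Set.mem_uIcc]
    rcases hprod with hp | hp
    · left
      have hp' : d * -r = -(2*v) := by rw [mul_neg, hp]
      rw [hp'] at e2
      rw [hp] at e1
      rcases hv2 with h' | h' <;> rw [h'] at e1 e2 <;> constructor <;> linarith
    · right
      have hp' : d * -r = 2*v := by rw [mul_neg, hp]; ring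
      rw [hp'] at e2
      rw [hp] at e1
      rcases hv2 with h' | h' <;> rw [h'] at e1 e2 <;> constructor <;> linarith
  obtain ⟨a, ha, ha0⟩ := intermediate_value_uIcc (hcont.continuousOn) hmain
  exact ⟨a, ha0, (hsub ha).trans hrD⟩

/-- Homogenized value. -/
def hom (P : ℤ[X]) (n : ℕ) (p q : ℤ) : ℤ := ∑ i ∈ range (n+1), P.coeff i * p ^ i * q ^ (n - i)

lemma hom_eq {P : ℤ[X]} {n : ℕ} (h : P.natDegree ≤ n) {p q : ℤ} (hq : 0 < q) :
    (hom P n p q : ℝ) = q ^ n * aeval ((p:ℝ)/q) P := by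
  rw [aeval_real_eq h, hom, Finset.mul_sum]
  push_cast
  refine Finset.sum_congr rfl fun i hi => ?_
  have hi' : i ≤ n := Nat.lt_succ_iff.mp (mem_range.mp hi)
  have hq' : (q:ℝ) ≠ 0 := by exact_mod_cast hq.ne'
  have : (q:ℝ) ^ n = q ^ (n - i) * q ^ i := by rw [← pow_add, Nat.sub_add_cancel hi']
  rw [this, div_pow]
  field_simp

lemma dvd_hom_sub (P : ℤ[X]) (n : ℕ) (p q : ℤ) : q ∣ hom P n p q - P.coeff n * p ^ n := by
  rw [hom, Finset.sum_range_succ]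
  simp only [Nat.sub_self, pow_zero, mul_one, add_sub_cancel_right]
  refine Finset.dvd_sum fun i hi => ?_
  have hi' : i < n := mem_range.mp hi
  have : q ^ (n - i) = q * q ^ (n - i - 1) := by
    rw [← pow_succ']; congr 1; omega
  rw [this]
  exact ⟨P.coeff i * p ^ i * q ^ (n - i - 1), by ring⟩

lemma one_le_abs_hom {P : ℤ[X]} {n : ℕ} (h : P.natDegree ≤ n) {p q : ℤ} (hq : 0 < q)
    (h0 : aeval ((p:ℝ)/q) P ≠ 0) : 1 ≤ (q:ℝ) ^ n * |aeval ((p:ℝ)/q) P| := by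
  have hq' : (0:ℝ) < q := by exact_mod_cast hq
  have h1 := hom_eq h (p := p) hq
  have h2 : hom P n p q ≠ 0 := by
    intro h3
    rw [h3, Int.cast_zero] at h1
    exact (mul_ne_zero (pow_pos hq' n).ne' h0) h1.symm
  have h3 : (1:ℤ) ≤ |hom P n p q| := Int.one_le_abs h2
  have h4 : (1:ℝ) ≤ |(hom P n p q : ℝ)| := by exact_mod_cast h3
  rw [h1, abs_mul, abs_of_pos (pow_pos hq' n)] at h4
  exact h4

/-- The linear polynomial `q T - p`. -/
noncomputable def lin (p q : ℤ) : ℤ[X] := C q * X - C p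

lemma lin_eq (p q : ℤ) : lin p q = C q * X + C (-p) := by
  rw [lin, C_neg, sub_eq_add_neg]

lemma aeval_lin (p q : ℤ) (x : ℝ) : aeval x (lin p q) = q * x - p := by
  simp [lin]

lemma natDegree_lin_le (p q : ℤ) : (lin p q).natDegree ≤ 1 := by
  rw [lin_eq]; exact natDegree_linear_le

lemma natDegree_lin {p q : ℤ} (hq : q ≠ 0) : (lin p q).natDegree = 1 := by
  rw [lin_eq]; exact natDegree_linear hq

lemma lin_ne_zero {p q : ℤ} (hq : q ≠ 0) : lin p q ≠ 0 := by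
  intro h
  have := natDegree_lin (p := p) hq
  rw [h, natDegree_zero] at this
  omega

lemma coeff_lin_zero (p q : ℤ) : (lin p q).coeff 0 = -p := by simp [lin]

lemma coeff_lin_one (p q : ℤ) : (lin p q).coeff 1 = q := by
  rw [lin, coeff_sub, coeff_C_mul, coeff_X_one, mul_one, coeff_C_of_ne_zero one_ne_zero, sub_zero]

lemma irreducible_lin {p q : ℤ} (hq : q ≠ 0) (h : IsCoprime p q) : Irreducible (lin p q) := by
  apply irreducible_of_degree_eq_one_of_isRelPrime_coeff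
  · rw [lin_eq]; exact degree_linear hq
  · rw [coeff_lin_zero, coeff_lin_one]
    exact (h.neg_left).isRelPrime

lemma isPrimitive_lin {p q : ℤ} (h : IsCoprime p q) : (lin p q).IsPrimitive := by
  intro r hr
  rw [C_dvd_iff_dvd_coeff] at hr
  have h0 := hr 0
  have h1 := hr 1
  rw [coeff_lin_zero, dvd_neg] at h0
  rw [coeff_lin_one] at h1
  exact h.isUnit_of_dvd' h0 h1

lemma ht_lin {p q : ℤ} (hp : 0 < p) (hpq : p < q) : (ht (lin p q) : ℝ) = q := by
  apply le_antisymm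
  · apply ht_le
    intro i
    have hq' : (0:ℝ) < q := by exact_mod_cast hp.trans hpq
    have hp' : (0:ℝ) < p := by exact_mod_cast hp
    have hpq' : (p:ℝ) < q := by exact_mod_cast hpq
    rcases i with _ | _ | i
    · rw [coeff_lin_zero, Int.cast_neg, abs_neg, abs_of_pos hp']; exact hpq'.le
    · rw [coeff_lin_one, abs_of_pos hq']
    · rw [coeff_eq_zero_of_natDegree_lt (lt_of_le_of_lt (natDegree_lin_le p q) (by omega))]
      simp [hq'.le]
  · have := abs_coeff_le (lin p q) 1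
    rw [coeff_lin_one] at this
    exact (le_abs_self _).trans this

lemma lin_dvd {P : ℤ[X]} {p q : ℤ} (hq : 0 < q) (h : IsCoprime p q)
    (h0 : aeval ((p:ℝ)/q) P = 0) : lin p q ∣ P := by
  rw [IsPrimitive.Int.dvd_iff_map_cast_dvd_map_cast _ _ (isPrimitive_lin h)]
  have hq' : (q:ℚ) ≠ 0 := by exact_mod_cast hq.ne'
  have h1 : (P.map (Int.castRingHom ℚ)).eval ((p:ℚ)/q) = 0 := by
    have h2 : (((P.map (Int.castRingHom ℚ)).eval ((p:ℚ)/q) : ℚ) : ℝ) = 0 := by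
      rw [← h0]
      have h3 : ((p:ℝ)/q) = ((((p:ℚ)/q) : ℚ) : ℝ) := by push_cast; rfl
      rw [h3, aeval_real_eq le_rfl, eval_map, eval₂_eq_sum_range]
      push_cast
      simp
    exact_mod_cast h2
  have h2 : (X - C ((p:ℚ)/q)) ∣ P.map (Int.castRingHom ℚ) := dvd_iff_isRoot.mpr h1
  have h3 : (lin p q).map (Int.castRingHom ℚ) = C (q:ℚ) * (X - C ((p:ℚ)/q)) := by
    rw [lin, Polynomial.map_sub, Polynomial.map_mul, map_C, map_X, map_C, mul_sub, ← C_mul]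
    congr 2
    simp
    field_simp
  rw [h3]
  have h4 : IsUnit (C (q:ℚ)) := isUnit_C.mpr (isUnit_iff_ne_zero.mpr hq')
  exact (h4.mul_left_dvd).mpr h2

lemma ht_mul_lin {R : ℤ[X]} {n : ℕ} (hR : R.natDegree < n) {p q : ℤ} (hp : 0 < p) (hpq : p < q) :
    (q:ℝ) * ht R ≤ n * ht (lin p q * R) := by
  have hq : 0 < q := hp.trans hpq
  have hq' : (0:ℝ) < q := by exact_mod_cast hq
  set H : ℝ := ((ht (lin p q * R) : ℕ) : ℝ) with hH
  have hH0 : 0 ≤ H := Nat.cast_nonneg _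
  have key : ∀ j i : ℕ, i + j = n → (q:ℝ) * |(R.coeff i : ℝ)| ≤ j * H := by
    intro j
    induction j with
    | zero =>
      intro i hi
      rw [coeff_eq_zero_of_natDegree_lt (by omega)]
      simp
    | succ j ih =>
      intro i hi
      have h1 := ih (i+1) (by omega)
      have h2 : (lin p q * R).coeff (i+1) = q * R.coeff i - p * R.coeff (i+1) := by
        rw [lin, sub_mul, coeff_sub, mul_assoc, coeff_C_mul, coeff_X_mul, coeff_C_mul]
      have h3 : (q:ℝ) * R.coeff i = (lin p q * R).coeff (i+1) + p * R.coeff (i+1) := by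
        rw [h2]; push_cast; ring
      have h4 : |(q:ℝ) * R.coeff i| ≤ H + q * |(R.coeff (i+1) : ℝ)| := by
        rw [h3]
        refine (abs_add_le _ _).trans ?_
        have h5 := abs_coeff_le (lin p q * R) (i+1)
        have h6 : |(p:ℝ) * R.coeff (i+1)| ≤ q * |(R.coeff (i+1) : ℝ)| := by
          rw [abs_mul]
          have : |(p:ℝ)| ≤ q := by
            rw [abs_of_pos (by exact_mod_cast hp)]; exact_mod_cast hpq.le
          gcongr
        exact add_le_add h5 h6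
      rw [abs_mul, abs_of_pos hq'] at h4
      push_cast
      linarith
  have key2 : ∀ i, |(R.coeff i : ℝ)| ≤ n * H / q := by
    intro i
    rw [le_div_iff₀ hq', mul_comm]
    rcases le_or_gt n i with h | h
    · rw [coeff_eq_zero_of_natDegree_lt (by omega)]
      simp
      positivity
    · refine (key (n - i) i (by omega)).trans ?_
      gcongr
      exact Nat.sub_le _ _
  have := ht_le key2
  rw [le_div_iff₀ hq', mul_comm] at this
  exact this

/-- Solving the homogeneous Bezout-type equation with small coefficients. -/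
lemma exists_hom_eq {p q : ℤ} (hp : 0 < p) (hpq : p < q) (hc : IsCoprime p q) (d : ℕ) :
    ∀ (K R : ℤ), 1 ≤ K → |R| ≤ K * q ^ (d+1) → ∃ S : ℤ[X], S.natDegree ≤ d ∧
      (∀ i, |S.coeff i| ≤ (K + d) * q) ∧ hom S d p q = R := by
  have hq : 0 < q := hp.trans hpq
  induction d with
  | zero =>
    intro K R hK hR
    refine ⟨C R, by simp, ?_, by simp [hom]⟩
    intro i
    rcases i with _ | i
    · simpa using hR
    · simp only [coeff_C_succ, abs_zero, Nat.cast_zero, add_zero]; positivity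
  | succ d ih =>
    intro K R hK hR
    obtain ⟨u, v, huv⟩ := hc.pow_left (m := d+1)
    -- u * p^(d+1) + v * q = 1
    set b := (R * u) % q with hb
    have hb0 : 0 ≤ b := Int.emod_nonneg _ hq.ne'
    have hb1 : b < q := Int.emod_lt_of_pos _ hq
    have hdvd : q ∣ R - b * p ^ (d+1) := by
      have h1 : R * u = b + q * (R * u / q) := (Int.emod_add_mul_ediv (R*u) q).symm
      have h2 : b = R * u - q * (R * u / q) := by linarith
      refine ⟨R * v + (R * u / q) * p ^ (d+1), ?_⟩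
      rw [h2]
      have h3 : R = R * (u * p ^ (d+1) + v * q) := by rw [huv, mul_one]
      calc R - (R * u - q * (R * u / q)) * p ^ (d+1)
          = R * (u * p ^ (d+1) + v * q) - (R * u - q * (R * u / q)) * p ^ (d+1) := by
            rw [← h3]
        _ = _ := by ring
    obtain ⟨R', hR'⟩ := hdvd
    have hppow : p ^ (d+1) ≤ q ^ (d+1) := pow_le_pow_left₀ hp.le hpq.le _
    have hbound : |R'| ≤ (K+1) * q ^ (d+1) := by
      have h1 : q * |R'| ≤ q * ((K+1) * q ^ (d+1)) := by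
        rw [← abs_of_pos hq, ← abs_mul, abs_of_pos hq, ← hR']
        calc |R - b * p ^ (d+1)| ≤ |R| + |b * p ^ (d+1)| := abs_sub _ _
          _ ≤ K * q ^ (d+1+1) + q * q ^ (d+1) := by
            have h2 : |b * p ^ (d+1)| = b * p ^ (d+1) := abs_of_nonneg (by positivity)
            rw [h2]
            have h3 : b * p ^ (d+1) ≤ q * q ^ (d+1) := by gcongr
            exact add_le_add hR h3
          _ = _ := by ring
      exact le_of_mul_le_mul_left h1 hq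
    obtain ⟨S, hS1, hS2, hS3⟩ := ih (K+1) R' (by linarith) hbound
    refine ⟨monomial (d+1) b + S, ?_, ?_, ?_⟩
    · refine natDegree_add_le_of_degree_le (natDegree_monomial_le _) (hS1.trans (Nat.le_succ _))
    · intro i
      rw [coeff_add, coeff_monomial]
      split_ifs with h
      · rw [← h, coeff_eq_zero_of_natDegree_lt (by omega), add_zero, abs_of_nonneg hb0]
        have h2 : (1:ℤ) * q ≤ (K + ((d+1:ℕ):ℤ)) * q := by
          apply mul_le_mul_of_nonneg_right _ hq.le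
          push_cast; linarith [Int.natCast_nonneg d]
        linarith
      · rw [zero_add]
        refine (hS2 i).trans (le_of_eq ?_)
        push_cast; ring
    · rw [hom, Finset.sum_range_succ]
      have h1 : ∀ i ∈ range (d+1), (monomial (d+1) b + S).coeff i * p ^ i * q ^ (d+1-i)
          = q * (S.coeff i * p ^ i * q ^ (d-i)) := by
        intro i hi
        have hi' : i ≤ d := Nat.lt_succ_iff.mp (mem_range.mp hi)
        rw [coeff_add, coeff_monomial, if_neg (by omega), zero_add, Nat.succ_sub hi', pow_succ]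
        ring
      rw [Finset.sum_congr rfl h1, ← Finset.mul_sum]
      change q * hom S d p q + _ = _
      rw [hS3, coeff_add, coeff_monomial_same, coeff_eq_zero_of_natDegree_lt (by omega : S.natDegree < d+1)]
      simp
      linarith

/-- The monic polynomial with small value at `p/q`. -/
lemma exists_base {n : ℕ} (hn : 2 ≤ n) {p q N : ℤ} (hp : 0 < p) (hpq : p < q) (hc : IsCoprime p q)
    (hN : q ∣ p ^ n - N) (hNq : |N| ≤ q) :
    ∃ B : ℤ[X], B.Monic ∧ B.natDegree = n ∧ (ht B : ℝ) ≤ n * q ∧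
      (q:ℝ) ^ n * aeval ((p:ℝ)/q) B = N := by
  have hq : 0 < q := hp.trans hpq
  have hq2 : 2 ≤ q := by omega
  obtain ⟨d, rfl⟩ : ∃ d, n = d + 1 := ⟨n - 1, by omega⟩
  obtain ⟨R, hR⟩ := hN
  -- p^n - N = q R
  have hppow : p ^ (d+1) ≤ q ^ (d+1) := pow_le_pow_left₀ hp.le hpq.le _
  have hqd : q ≤ q ^ (d+1) := by
    calc q = q ^ 1 := (pow_one q).symm
      _ ≤ q ^ (d+1) := pow_le_pow_right₀ (by omega) (by omega)
  have hbound : |-R| ≤ 1 * q ^ (d+1) := by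
    rw [abs_neg, one_mul]
    have h1 : q * |R| ≤ q * q ^ (d+1) := by
      rw [← abs_of_pos hq, ← abs_mul, abs_of_pos hq, ← hR]
      calc |p ^ (d+1) - N| ≤ |p ^ (d+1)| + |N| := abs_sub _ _
        _ ≤ q ^ (d+1) + q ^ (d+1) := by
          rw [abs_of_nonneg (by positivity)]
          exact add_le_add hppow (hNq.trans hqd)
        _ = 2 * q ^ (d+1) := by ring
        _ ≤ q * q ^ (d+1) := by gcongr
    exact le_of_mul_le_mul_left h1 hq
  obtain ⟨S, hS1, hS2, hS3⟩ := exists_hom_eq hp hpq hc d 1 (-R) le_rfl hbound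
  have hdeg : S.degree < ((d+1 : ℕ) : WithBot ℕ) :=
    lt_of_le_of_lt degree_le_natDegree (by exact_mod_cast Nat.lt_succ_of_le hS1)
  refine ⟨X ^ (d+1) + S, monic_X_pow_add hdeg, ?_, ?_, ?_⟩
  · rw [natDegree_add_eq_left_of_natDegree_lt, natDegree_X_pow]
    rw [natDegree_X_pow]; omega
  · apply ht_le
    intro i
    rw [coeff_add, coeff_X_pow]
    split_ifs with h
    · rw [h, coeff_eq_zero_of_natDegree_lt (by omega)]
      have h1 : (1:ℝ) ≤ q := by exact_mod_cast hq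
      have h2 : (1:ℝ) ≤ ((d+1 : ℕ) : ℝ) := by exact_mod_cast Nat.succ_pos d
      simp only [add_zero, Int.cast_one, abs_one]
      nlinarith
    · rw [zero_add]
      have h1 : |(S.coeff i : ℝ)| ≤ ((1 + d) * q : ℤ) := by exact_mod_cast hS2 i
      refine h1.trans (le_of_eq ?_)
      push_cast; ring
  · have h1 : (X ^ (d+1) + S : ℤ[X]).natDegree ≤ d + 1 := by
      refine natDegree_add_le_of_degree_le (natDegree_X_pow_le _) (hS1.trans (Nat.le_succ _))
    rw [← hom_eq h1 hq]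
    have h2 : hom (X ^ (d+1) + S) (d+1) p q = N := by
      rw [hom, Finset.sum_range_succ]
      have h3 : ∀ i ∈ range (d+1), (X ^ (d+1) + S : ℤ[X]).coeff i * p ^ i * q ^ (d+1-i)
          = q * (S.coeff i * p ^ i * q ^ (d-i)) := by
        intro i hi
        have hi' : i ≤ d := Nat.lt_succ_iff.mp (mem_range.mp hi)
        rw [coeff_add, coeff_X_pow, if_neg (by omega), zero_add, Nat.succ_sub hi', pow_succ]
        ring
      rw [Finset.sum_congr rfl h3, ← Finset.mul_sum]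
      change q * hom S d p q + _ = _
      rw [hS3, coeff_add, coeff_X_pow, if_pos rfl,
        coeff_eq_zero_of_natDegree_lt (by omega : S.natDegree < d+1)]
      simp
      linarith
    rw [h2]

/-- Gelfond-type constant. -/
noncomputable def G (n : ℕ) : ℝ := 2 ^ n * (n + 1)

lemma G_pos (n : ℕ) : 0 < G n := by unfold G; positivity

lemma ht_factor_le {Q R : ℤ[X]} {n : ℕ} (hQ : Q.natDegree ≤ n) (hR : R ≠ 0)
    (hQR : (Q * R).natDegree ≤ n) : (ht Q : ℝ) ≤ G n * ht (Q * R) := by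
  apply ht_le
  intro i
  set f := Int.castRingHom ℂ with hf
  have h1 : 1 ≤ (R.map f).mahlerMeasure := by
    apply one_le_mahlerMeasure_of_one_le_norm_leadingCoeff
    rw [leadingCoeff_map_of_injective (RingHom.injective_int f)]
    simp only [hf, eq_intCast, Complex.norm_intCast]
    have : R.leadingCoeff ≠ 0 := leadingCoeff_ne_zero.mpr hR
    exact_mod_cast Int.one_le_abs this
  have h2 := norm_coeff_le_choose_mul_mahlerMeasure_of_one_le_mahlerMeasure i (Q.map f) (R.map f) h1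
  rw [← Polynomial.map_mul, coeff_map] at h2
  simp only [hf, eq_intCast, Complex.norm_intCast] at h2
  refine h2.trans ?_
  have h3 : ((Q * R).map f).mahlerMeasure ≤ (n+1) * ht (Q * R) := by
    refine (mahlerMeasure_le_sum_norm_coeff _).trans ?_
    rw [Polynomial.sum_over_range' _ _ (n+1) (Nat.lt_succ_of_le ((natDegree_map_le).trans hQR))]
    · refine (Finset.sum_le_sum (g := fun _ => (ht (Q*R) : ℝ)) ?_).trans ?_
      · intro j _
        rw [coeff_map]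
        simp only [hf, eq_intCast, Complex.norm_intCast]
        exact abs_coeff_le _ _
      · simp
    · simp
  have h4 : (((Q.map f).natDegree.choose i : ℕ) : ℝ) ≤ 2 ^ n := by
    have h5 : (Q.map f).natDegree.choose i ≤ 2 ^ (Q.map f).natDegree := Nat.choose_le_two_pow _ _
    have h6 : 2 ^ (Q.map f).natDegree ≤ 2 ^ n :=
      Nat.pow_le_pow_right (by norm_num) ((natDegree_map_le).trans hQ)
    exact_mod_cast h5.trans h6
  have h7 : 0 ≤ ((Q * R).map f).mahlerMeasure := mahlerMeasure_nonneg _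
  calc (((Q.map f).natDegree.choose i : ℕ) : ℝ) * ((Q * R).map f).mahlerMeasure
      ≤ 2 ^ n * ((n+1) * ht (Q * R)) := by gcongr
    _ = G n * ht (Q * R) := by unfold G; ring

/-- The minimal polynomial of a root of a monic polynomial. -/
lemma exists_minpoly {P : ℤ[X]} {n : ℕ} (hP : P.Monic) (hn : P.natDegree ≤ n) {a : ℝ}
    (ha : aeval a P = 0) : ∃ Q : ℤ[X], Q.Monic ∧ Irreducible Q ∧ aeval a Q = 0 ∧
      Q.natDegree ≤ n ∧ (ht Q : ℝ) ≤ G n * ht P := by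
  have hint : IsIntegral ℤ a := ⟨P, hP, ha⟩
  have hQm := minpoly.monic hint
  obtain ⟨R, hR⟩ := minpoly.isIntegrallyClosed_dvd hint ha
  have hR0 : R ≠ 0 := by
    rintro rfl
    rw [mul_zero] at hR
    exact hP.ne_zero hR
  have hd : (minpoly ℤ a).natDegree ≤ n := by
    have : (minpoly ℤ a).natDegree ≤ P.natDegree := by
      rw [hR]
      rw [natDegree_mul hQm.ne_zero hR0]
      exact Nat.le_add_right _ _
    exact this.trans hn
  refine ⟨minpoly ℤ a, hQm, minpoly.irreducible hint, minpoly.aeval ℤ a, hd, ?_⟩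
  have := ht_factor_le hd hR0 (by rw [← hR]; exact hn)
  rwa [← hR] at this

open Filter Topology

lemma sSup_eq_of {S : Set ℝ} {w : ℝ} (h1 : ∀ v ∈ S, v ≤ w)
    (h2 : ∀ v < w, ∃ u ∈ S, v ≤ u) :
    sSup ((fun v : ℝ => (v : EReal)) '' S) = (w : EReal) := by
  apply le_antisymm
  · apply sSup_le
    rintro _ ⟨v, hv, rfl⟩
    exact EReal.coe_le_coe_iff.mpr (h1 v hv)
  · apply le_of_forall_lt
    intro a ha
    obtain ⟨v, hv1, hv2⟩ := EReal.lt_iff_exists_real_btwn.mp ha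
    obtain ⟨u, hu, huv⟩ := h2 v (EReal.coe_lt_coe_iff.mp hv2)
    refine lt_of_lt_of_le hv1 ((EReal.coe_le_coe_iff.mpr huv).trans ?_)
    exact le_sSup ⟨u, hu, rfl⟩

/-- The data from which everything is read off. -/
structure Data (n : ℕ) (w g t c0 C0 : ℝ) (p q N : ℕ → ℤ) (z : ℝ) : Prop where
  hn : 2 ≤ n
  hw : 2 * (n:ℝ) - 1 ≤ w
  hg1 : 1 ≤ g
  hg : n * g ≤ w * (w - n + 1)
  ht1 : (n:ℝ) - 1 ≤ t
  ht2 : t ≤ n
  hc0 : 0 < c0
  hC0 : 1 ≤ C0
  hp : ∀ k, 0 < p k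
  hpq : ∀ k, p k < q k
  hcop : ∀ k, IsCoprime (p k) (q k)
  hgrow : ∀ k, 2 * q k ≤ q (k+1)
  hgrow2 : ∀ k, (q (k+1) : ℝ) ≤ C0 * (q k : ℝ) ^ g
  hlow : ∀ k, c0 * (q k : ℝ) ^ (-(w+1)) ≤ |z - p k / q k|
  hup : ∀ k, |z - p k / q k| ≤ C0 * (q k : ℝ) ^ (-(w+1))
  hN : ∀ k, q k ∣ p k ^ n - N k
  hN1 : ∀ k, c0 * (q k : ℝ) ^ ((n:ℝ) - t) ≤ |(N k : ℝ)|
  hN2 : ∀ k, |(N k : ℝ)| ≤ C0 * (q k : ℝ) ^ ((n:ℝ) - t)
  hN3 : ∀ k, 2 * |N k| ≤ q k
  hz0 : 0 ≤ z
  hz1 : z ≤ 1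

namespace Data

variable {n : ℕ} {w g t c0 C0 : ℝ} {p q N : ℕ → ℤ} {z : ℝ} (D : Data n w g t c0 C0 p q N z)

include D

lemma n_two : (2:ℝ) ≤ n := by exact_mod_cast D.hn

lemma w_three : 3 ≤ w := by have := D.n_two; have := D.hw; linarith

lemma q_pos (k : ℕ) : 0 < q k := (D.hp k).trans (D.hpq k)

lemma q_two (k : ℕ) : (2:ℝ) ≤ q k := by
  have h1 := D.hp k
  have h2 := D.hpq k
  have : 2 ≤ q k := by omega
  exact_mod_cast this

lemma Q_pos (k : ℕ) : (0:ℝ) < q k := by have := D.q_two k; linarith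

lemma Q_one (k : ℕ) : (1:ℝ) ≤ q k := by have := D.q_two k; linarith

lemma q_ge (k : ℕ) : (2:ℝ) ^ k ≤ q k := by
  induction k with
  | zero => simpa using D.Q_one 0
  | succ k ih =>
    have h : (2:ℝ) * q k ≤ q (k+1) := by exact_mod_cast D.hgrow k
    rw [pow_succ]
    linarith

lemma q_tendsto : Tendsto (fun k => (q k : ℝ)) atTop atTop :=
  tendsto_atTop_mono D.q_ge (tendsto_pow_atTop_atTop_of_one_lt one_lt_two)

lemma q_strictMono : StrictMono q := strictMono_nat_of_lt_succ fun k => by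
  have h1 := D.hgrow k
  have h2 := D.q_pos k
  omega

lemma ev (C : ℝ) {a : ℝ} (ha : 0 < a) : ∀ᶠ k in atTop, C ≤ (q k : ℝ) ^ a :=
  ((tendsto_rpow_atTop ha).comp D.q_tendsto).eventually_ge_atTop C

lemma abs_z : |z| ≤ 1 := by rw [abs_of_nonneg D.hz0]; exact D.hz1

lemma frac_abs (k : ℕ) : |(p k : ℝ) / q k| ≤ 1 := by
  have h1 : (0:ℝ) < p k := by exact_mod_cast D.hp k
  have h2 : (p k : ℝ) < q k := by exact_mod_cast D.hpq k
  rw [abs_of_nonneg (div_nonneg h1.le (D.Q_pos k).le), div_le_one (D.Q_pos k)]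
  exact h2.le

lemma eta_eq (k : ℕ) : |(q k : ℝ) * z - p k| = q k * |z - p k / q k| := by
  have h := D.Q_pos k
  rw [← abs_of_pos h, ← abs_mul, abs_of_pos h, mul_sub, mul_div_cancel₀ _ h.ne']

lemma eta_up (k : ℕ) : |(q k : ℝ) * z - p k| ≤ C0 * (q k : ℝ) ^ (-w) := by
  have h := D.Q_pos k
  rw [D.eta_eq]
  have h1 := D.hup k
  have h2 : (q k : ℝ) ^ (-w) = (q k : ℝ) ^ (-(w+1)) * q k := by
    rw [← Real.rpow_add_one h.ne']; congr 1; ring
  rw [h2]
  calc (q k : ℝ) * |z - p k / q k| ≤ q k * (C0 * (q k : ℝ) ^ (-(w+1))) := by gcongr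
    _ = _ := by ring

lemma eta_low (k : ℕ) : c0 * (q k : ℝ) ^ (-w) ≤ |(q k : ℝ) * z - p k| := by
  have h := D.Q_pos k
  rw [D.eta_eq]
  have h1 := D.hlow k
  have h2 : (q k : ℝ) ^ (-w) = (q k : ℝ) ^ (-(w+1)) * q k := by
    rw [← Real.rpow_add_one h.ne']; congr 1; ring
  rw [h2]
  calc c0 * ((q k : ℝ) ^ (-(w+1)) * q k) = q k * (c0 * (q k : ℝ) ^ (-(w+1))) := by ring
    _ ≤ _ := by gcongr

lemma transfer {P : ℤ[X]} (hd : P.natDegree ≤ n) (k : ℕ) :
    |aeval z P - aeval ((p k : ℝ) / q k) P| ≤ K1 n * ht P * (C0 * (q k : ℝ) ^ (-(w+1))) := by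
  have h1 := aeval_sub_le_real hd (x := z) (y := (p k : ℝ) / q k) (by linarith [D.abs_z])
    (by linarith [D.frac_abs k])
  refine h1.trans ?_
  have := K1_nonneg n
  have := D.hup k
  gcongr

lemma K1_ge : 1 ≤ K1 n := by
  unfold K1
  have h := D.n_two
  have h2 : (1:ℝ) ≤ 2 ^ n := one_le_pow₀ (by norm_num)
  nlinarith [mul_le_mul (by linarith : (1:ℝ) ≤ n) h2 (by norm_num) (by linarith)]

lemma lower (m : ℕ) : m ≤ n → ∃ c : ℝ, 0 < c ∧ ∀ P : ℤ[X], P ≠ 0 → P.natDegree ≤ m →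
    c * (ht P : ℝ) ^ (-w) ≤ |aeval z P| := by
  have hw3 := D.w_three
  induction m with
  | zero =>
    intro _
    refine ⟨1, one_pos, fun P hP hd => ?_⟩
    have h1 : (ht P : ℝ) ^ (-w) ≤ 1 :=
      Real.rpow_le_one_of_one_le_of_nonpos (one_le_ht hP) (by linarith)
    have h2 : P = C (P.coeff 0) := eq_C_of_natDegree_le_zero hd
    have h3 : P.coeff 0 ≠ 0 := by
      intro h; rw [h, C_0] at h2; exact hP h2
    have h4 : aeval z P = (P.coeff 0 : ℝ) := by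
      conv_lhs => rw [h2]
      rw [aeval_C]; simp
    rw [h4, one_mul]
    have h5 : (1:ℝ) ≤ |(P.coeff 0 : ℝ)| := by exact_mod_cast Int.one_le_abs h3
    exact h1.trans h5
  | succ m ih =>
    intro hm
    obtain ⟨c, hc, hcP⟩ := ih (by omega)
    have hK := D.K1_ge
    have hC0 := D.hC0
    have hC0' : 0 < C0 := by linarith
    have hn2 := D.n_two
    set θ : ℝ := w - n + 1 with hθ
    have hθpos : 0 < θ := by have := D.hw; rw [hθ]; linarith
    set δ : ℝ := 1 / (2 * K1 n * C0) with hδ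
    have hKpos : 0 < K1 n := by linarith
    have hδpos : 0 < δ := by positivity
    have hδK : K1 n * δ * C0 = 1 / 2 := by
      rw [hδ]; field_simp
    have key : ∀ (P : ℤ[X]), P.natDegree ≤ n → ∀ k, (ht P : ℝ) ≤ δ * (q k : ℝ) ^ θ →
        aeval ((p k : ℝ) / q k) P ≠ 0 → (q k : ℝ) ^ (-(n:ℝ)) / 2 ≤ |aeval z P| := by
      intro P hd k hk h0
      have hQ := D.Q_pos k
      have h1 := one_le_abs_hom hd (D.q_pos k) h0
      have h2 : (q k : ℝ) ^ (-(n:ℝ)) ≤ |aeval ((p k : ℝ) / q k) P| := by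
        rw [Real.rpow_neg hQ.le, Real.rpow_natCast, inv_le_iff_one_le_mul₀ (pow_pos hQ n)]
        linarith
      have h3 := D.transfer hd k
      have h4 : K1 n * ht P * (C0 * (q k : ℝ) ^ (-(w+1))) ≤ (q k : ℝ) ^ (-(n:ℝ)) / 2 := by
        calc K1 n * ht P * (C0 * (q k : ℝ) ^ (-(w+1)))
            ≤ K1 n * (δ * (q k : ℝ) ^ θ) * (C0 * (q k : ℝ) ^ (-(w+1))) := by gcongr
          _ = (K1 n * δ * C0) * ((q k : ℝ) ^ θ * (q k : ℝ) ^ (-(w+1))) := by ring
          _ = (q k : ℝ) ^ (-(n:ℝ)) / 2 := by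
            rw [hδK, ← Real.rpow_add hQ]
            rw [show θ + -(w+1) = -(n:ℝ) by rw [hθ]; ring]
            ring
      have h5 : |aeval ((p k : ℝ) / q k) P| ≤ |aeval z P| +
          |aeval z P - aeval ((p k : ℝ) / q k) P| := by
        have := abs_sub_abs_le_abs_sub (aeval ((p k : ℝ) / q k) P) (aeval z P)
        rw [abs_sub_comm (aeval ((p k : ℝ) / q k) P)] at this
        linarith
      linarith
    set c1 : ℝ := c0 * c * (n:ℝ) ^ (-w) with hc1
    set c2 : ℝ := (q 0 : ℝ) ^ (-(n:ℝ)) / 2 with hc2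
    set c3 : ℝ := (C0 ^ n)⁻¹ * δ ^ w / 2 with hc3
    have hc0 := D.hc0
    have hc1pos : 0 < c1 := by positivity
    have hc2pos : 0 < c2 := by have := D.Q_pos 0; positivity
    have hc3pos : 0 < c3 := by positivity
    refine ⟨min c1 (min c2 c3), by positivity, fun P hP hd => ?_⟩
    have hH1 : (1:ℝ) ≤ ht P := one_le_ht hP
    have hHpos : (0:ℝ) < ht P := by linarith
    have hHw : 0 < (ht P : ℝ) ^ (-w) := Real.rpow_pos_of_pos hHpos _
    have hex : ∃ k, (ht P : ℝ) ≤ δ * (q k : ℝ) ^ θ := by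
      obtain ⟨k, hk⟩ := (D.ev ((ht P : ℝ) / δ) hθpos).exists
      refine ⟨k, ?_⟩
      rwa [div_le_iff₀ hδpos, mul_comm] at hk
    classical
    obtain ⟨k, hk, hkmin⟩ : ∃ k, (ht P : ℝ) ≤ δ * (q k : ℝ) ^ θ ∧
        ∀ j < k, ¬ (ht P : ℝ) ≤ δ * (q j : ℝ) ^ θ :=
      ⟨Nat.find hex, Nat.find_spec hex, fun j hj => Nat.find_min hex hj⟩
    by_cases h0 : aeval ((p k : ℝ) / q k) P = 0
    · obtain ⟨R, rfl⟩ := lin_dvd (D.q_pos k) (D.hcop k) h0
      have hR0 : R ≠ 0 := by rintro rfl; exact hP (mul_zero _)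
      have hRd : R.natDegree ≤ m := by
        have h1 := natDegree_mul (lin_ne_zero (p := p k) (D.q_pos k).ne') hR0
        rw [natDegree_lin (D.q_pos k).ne'] at h1
        omega
      have hR := hcP R hR0 hRd
      have hmul := ht_mul_lin (n := n) (by omega : R.natDegree < n) (D.hp k) (D.hpq k)
      have hQ := D.Q_pos k
      have hHR : (0:ℝ) < ht R := by linarith [one_le_ht hR0]
      rw [map_mul, aeval_lin, abs_mul]
      have heta := D.eta_low k
      calc min c1 (min c2 c3) * (ht (lin (p k) (q k) * R) : ℝ) ^ (-w)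
          ≤ c1 * (ht (lin (p k) (q k) * R) : ℝ) ^ (-w) := by
            gcongr; exact min_le_left _ _
        _ = c0 * c * ((n:ℝ) * ht (lin (p k) (q k) * R)) ^ (-w) := by
            rw [Real.mul_rpow (by linarith) hHpos.le, hc1]; ring
        _ ≤ c0 * c * ((q k : ℝ) * ht R) ^ (-w) := by
            gcongr ?_ * ?_
            exact Real.rpow_le_rpow_of_nonpos (by positivity) hmul (by linarith)
        _ = (c0 * (q k : ℝ) ^ (-w)) * (c * (ht R : ℝ) ^ (-w)) := by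
            rw [Real.mul_rpow hQ.le hHR.le]; ring
        _ ≤ _ := by gcongr
    · have hkey := key P (hd.trans hm) k hk h0
      rcases Nat.eq_zero_or_pos k with hk0 | hkpos
      · rw [hk0] at hkey
        have h1 : (ht P : ℝ) ^ (-w) ≤ 1 :=
          Real.rpow_le_one_of_one_le_of_nonpos hH1 (by linarith)
        calc min c1 (min c2 c3) * (ht P : ℝ) ^ (-w) ≤ c2 * 1 := by
              gcongr
              exact (min_le_right _ _).trans (min_le_left _ _)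
          _ ≤ _ := by rw [mul_one]; exact hkey
      · obtain ⟨j, hj⟩ : ∃ j, k = j + 1 := ⟨k - 1, by omega⟩
        have hjmin := hkmin j (by omega)
        push Not at hjmin
        rw [hj] at hkey
        have hQj := D.Q_pos j
        have hQj1 := D.Q_one j
        have hQk := D.Q_pos (j+1)
        have h1 := D.hgrow2 j
        -- Q_j^θ ≤ H/δ
        have h2 : (q j : ℝ) ^ θ ≤ ht P / δ := by
          rw [le_div_iff₀ hδpos, mul_comm]; exact hjmin.le
        have h3 : (q j : ℝ) ^ (g * n) ≤ (ht P / δ) ^ w := by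
          calc (q j : ℝ) ^ (g * n) ≤ (q j : ℝ) ^ (θ * w) := by
                apply Real.rpow_le_rpow_of_exponent_le hQj1
                have := D.hg
                rw [hθ]; nlinarith
            _ = ((q j : ℝ) ^ θ) ^ w := by rw [Real.rpow_mul hQj.le]
            _ ≤ _ := by
              apply Real.rpow_le_rpow (by positivity) h2 (by linarith)
        have h4 : (q (j+1) : ℝ) ^ n ≤ C0 ^ n * (ht P / δ) ^ w := by
          calc (q (j+1) : ℝ) ^ n ≤ (C0 * (q j : ℝ) ^ g) ^ n := by gcongr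
            _ = C0 ^ n * (q j : ℝ) ^ (g * n) := by
              rw [mul_pow, Real.rpow_mul hQj.le, Real.rpow_natCast]
            _ ≤ _ := by gcongr
        have h5 : c3 * (ht P : ℝ) ^ (-w) ≤ (q (j+1) : ℝ) ^ (-(n:ℝ)) / 2 := by
          have h6 : (C0 ^ n * (ht P / δ) ^ w)⁻¹ ≤ ((q (j+1) : ℝ) ^ n)⁻¹ := by
            gcongr
          have h7 : (C0 ^ n * (ht P / δ) ^ w)⁻¹ = (C0 ^ n)⁻¹ * δ ^ w * (ht P : ℝ) ^ (-w) := by
            rw [Real.div_rpow hHpos.le hδpos.le, Real.rpow_neg hHpos.le]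
            field_simp
          rw [h7] at h6
          rw [Real.rpow_neg hQk.le, Real.rpow_natCast, hc3]
          linarith
        calc min c1 (min c2 c3) * (ht P : ℝ) ^ (-w) ≤ c3 * (ht P : ℝ) ^ (-w) := by
              gcongr
              exact (min_le_right _ _).trans (min_le_right _ _)
          _ ≤ _ := h5.trans hkey

end Data

lemma ht_bound_of {c K H w v : ℝ} (hc : 0 < c) (hH : 1 ≤ H) (hv : w < v)
    (h : c * H ^ (-w) ≤ K * H ^ (-v)) : H ≤ (K / c) ^ (1 / (v - w)) := by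
  have hH0 : 0 < H := by linarith
  have hvw : 0 < v - w := by linarith
  have h1 : H ^ (v - w) ≤ K / c := by
    rw [le_div_iff₀ hc]
    have h2 : H ^ (v - w) = H ^ (-w) * H ^ v := by
      rw [← Real.rpow_add hH0]; congr 1; ring
    have h3 : H ^ (-v) * H ^ v = 1 := by
      rw [← Real.rpow_add hH0]; simp
    calc H ^ (v - w) * c = (c * H ^ (-w)) * H ^ v := by rw [h2]; ring
      _ ≤ (K * H ^ (-v)) * H ^ v := by gcongr
      _ = K := by rw [mul_assoc, h3, mul_one]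
  have h2 : H = (H ^ (v - w)) ^ (1 / (v - w)) := by
    rw [← Real.rpow_mul hH0.le, mul_one_div_cancel hvw.ne', Real.rpow_one]
  rw [h2]
  apply Real.rpow_le_rpow (by positivity) h1 (by positivity)

namespace Data

variable {n : ℕ} {w g t c0 C0 : ℝ} {p q N : ℕ → ℤ} {z : ℝ} (D : Data n w g t c0 C0 p q N z)

include D

lemma wExp_eq {m : ℕ} (hm1 : 1 ≤ m) (hm : m ≤ n) : wExp m z = (w : EReal) := by
  obtain ⟨c, hc, hcP⟩ := D.lower n le_rfl
  apply sSup_eq_of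
  · intro v hv
    by_contra hvw
    push Not at hvw
    apply hv
    refine (finite_ht n ⌊((1:ℝ) / c) ^ (1 / (v - w))⌋₊).subset ?_
    rintro P ⟨hP0, hPd, hP⟩
    refine ⟨hPd.trans hm, ?_⟩
    apply Nat.le_floor
    apply ht_bound_of hc (one_le_ht hP0) hvw
    rw [one_mul]
    exact (hcP P hP0 (hPd.trans hm)).trans hP
  · intro v hv
    refine ⟨v, ?_, le_rfl⟩
    obtain ⟨k0, hk0⟩ := eventually_atTop.mp (D.ev C0 (sub_pos.mpr hv))
    refine Set.infinite_of_injective_forall_mem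
      (f := fun k : ℕ => lin (p (k + k0)) (q (k + k0))) ?_ ?_
    · intro k l hkl
      have h1 : q (k + k0) = q (l + k0) := by
        have h2 : (lin (p (k + k0)) (q (k + k0))).coeff 1 =
          (lin (p (l + k0)) (q (l + k0))).coeff 1 := congrArg (fun P => coeff P 1) hkl
        rwa [coeff_lin_one, coeff_lin_one] at h2
      have := D.q_strictMono.injective h1
      omega
    · intro k
      have hk := hk0 (k + k0) (Nat.le_add_left _ _)
      have hQ := D.Q_pos (k + k0)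
      refine ⟨lin_ne_zero (D.q_pos _).ne', (natDegree_lin_le _ _).trans hm1, ?_⟩
      rw [aeval_lin, ht_lin (D.hp _) (D.hpq _)]
      refine (D.eta_up _).trans ?_
      have h2 : (q (k+k0) : ℝ) ^ (-v) = (q (k+k0) : ℝ) ^ (w - v) * (q (k+k0) : ℝ) ^ (-w) := by
        rw [← Real.rpow_add hQ]; congr 1; ring
      rw [h2]
      gcongr

lemma abs_le_of_root {P : ℤ[X]} (hd : P.natDegree ≤ n) {a : ℂ} (ha : aeval a P = 0)
    (h1 : ‖(z:ℂ) - a‖ ≤ 1) : |aeval z P| ≤ K1 n * ht P * ‖(z:ℂ) - a‖ := by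
  have hz : ‖(z:ℂ)‖ ≤ 1 := by
    rw [Complex.norm_real, Real.norm_eq_abs]; exact D.abs_z
  have ha2 : ‖a‖ ≤ 2 := by
    have : a = (z:ℂ) - ((z:ℂ) - a) := by ring
    rw [this]
    refine (norm_sub_le _ _).trans ?_
    linarith
  have h2 := aeval_sub_le hd (x := (z:ℂ)) (y := a) (by linarith) ha2
  rw [ha, sub_zero, aeval_ofReal, Complex.norm_real, Real.norm_eq_abs] at h2
  exact h2

lemma wStar_eq {A : Set ℂ} (hA : ∀ r : ℝ, (r : ℂ) ∈ A) {m : ℕ} (hm1 : 1 ≤ m) (hm : m ≤ n) :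
    wStar A m z = (w : EReal) := by
  obtain ⟨c, hc, hcP⟩ := D.lower n le_rfl
  have hw3 := D.w_three
  apply sSup_eq_of
  · intro v hv
    by_contra hvw
    push Not at hvw
    apply hv
    have hfin := finite_ht n ⌊((K1 n) / c) ^ (1 / (v - w))⌋₊
    refine (hfin.biUnion (fun P _ => P.rootSet_finite ℂ)).subset ?_
    rintro a ⟨haA, P, hPirr, hPprim, haP, hPd, hdist⟩
    have hP0 : P ≠ 0 := hPirr.ne_zero
    have hH1 := one_le_ht hP0
    have hH0 : (0:ℝ) < ht P := by linarith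
    have h1 : ‖(z:ℂ) - a‖ ≤ 1 :=
      hdist.trans (Real.rpow_le_one_of_one_le_of_nonpos hH1 (by linarith))
    have h2 := D.abs_le_of_root (hPd.trans hm) haP h1
    have h3 : |aeval z P| ≤ K1 n * (ht P : ℝ) ^ (-v) := by
      refine h2.trans ?_
      have h4 : (ht P : ℝ) ^ (-v) = (ht P : ℝ) ^ (-v - 1) * ht P := by
        rw [← Real.rpow_add_one hH0.ne']; congr 1; ring
      rw [h4]
      have := K1_nonneg n
      calc K1 n * ht P * ‖(z:ℂ) - a‖ ≤ K1 n * ht P * (ht P : ℝ) ^ (-v - 1) := by gcongr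
        _ = _ := by ring
    rw [Set.mem_iUnion₂]
    refine ⟨P, ⟨hPd.trans hm, ?_⟩, ?_⟩
    · apply Nat.le_floor
      exact ht_bound_of hc hH1 hvw ((hcP P hP0 (hPd.trans hm)).trans h3)
    · rw [mem_rootSet]
      exact ⟨hP0, haP⟩
  · intro v hv
    refine ⟨v, ?_, le_rfl⟩
    obtain ⟨k0, hk0⟩ := eventually_atTop.mp (D.ev C0 (sub_pos.mpr hv))
    refine Set.infinite_of_injective_forall_mem
      (f := fun k : ℕ => (((p (k + k0) : ℝ) / q (k + k0) : ℝ) : ℂ)) ?_ ?_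
    · intro k l hkl
      have hkl' : ((p (k + k0) : ℝ) / q (k + k0)) = ((p (l + k0) : ℝ) / q (l + k0)) :=
        Complex.ofReal_injective hkl
      rw [div_eq_div_iff (D.Q_pos _).ne' (D.Q_pos _).ne'] at hkl'
      have h1 : p (k + k0) * q (l + k0) = p (l + k0) * q (k + k0) := by exact_mod_cast hkl'
      have h2 : q (k + k0) ∣ q (l + k0) := by
        apply (D.hcop (k + k0)).symm.dvd_of_dvd_mul_left
        rw [h1]; exact Dvd.intro_left _ rfl
      have h3 : q (l + k0) ∣ q (k + k0) := by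
        apply (D.hcop (l + k0)).symm.dvd_of_dvd_mul_left
        rw [← h1]; exact Dvd.intro_left _ rfl
      have h4 : q (k + k0) = q (l + k0) :=
        Int.dvd_antisymm (D.q_pos _).le (D.q_pos _).le h2 h3
      have := D.q_strictMono.injective h4
      omega
    · intro k
      have hk := hk0 (k + k0) (Nat.le_add_left _ _)
      have hQ := D.Q_pos (k + k0)
      refine ⟨hA _, lin (p (k + k0)) (q (k + k0)), irreducible_lin (D.q_pos _).ne' (D.hcop _),
        isPrimitive_lin (D.hcop _), ?_, (natDegree_lin_le _ _).trans hm1, ?_⟩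
      · rw [aeval_ofReal, aeval_lin, mul_div_cancel₀ _ hQ.ne', sub_self, Complex.ofReal_zero]
      · rw [← Complex.ofReal_sub, Complex.norm_real, Real.norm_eq_abs, ht_lin (D.hp _) (D.hpq _)]
        refine (D.hup _).trans ?_
        have h2 : (q (k+k0) : ℝ) ^ (-v - 1) =
            (q (k+k0) : ℝ) ^ (w - v) * (q (k+k0) : ℝ) ^ (-(w+1)) := by
          rw [← Real.rpow_add hQ]; congr 1; ring
        rw [h2]
        gcongr

/-- Values of monic polynomials at the convergents. -/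
lemma monic_low (k : ℕ) {P : ℤ[X]} (hP : P.Monic) (hd : P.natDegree ≤ n) :
    min c0 1 * (q k : ℝ) ^ (-t) ≤ |aeval ((p k : ℝ) / q k) P| := by
  have hQ := D.Q_pos k
  have hQ1 := D.Q_one k
  set m := P.natDegree with hm
  have h1 := hom_eq (P := P) (n := m) le_rfl (p := p k) (D.q_pos k)
  have h2 := dvd_hom_sub P m (p k) (q k)
  have h3 : P.coeff m = 1 := hP
  rw [h3, one_mul] at h2
  have h4 : |aeval ((p k : ℝ) / q k) P| = |(hom P m (p k) (q k) : ℝ)| / (q k : ℝ) ^ m := by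
    rw [h1, abs_mul, abs_of_pos (pow_pos hQ m), mul_div_cancel_left₀ _ (pow_pos hQ m).ne']
  rw [h4, le_div_iff₀ (pow_pos hQ m)]
  have hqt : 0 < (q k : ℝ) ^ (-t) := Real.rpow_pos_of_pos hQ _
  rcases lt_or_eq_of_le hd with hlt | heq
  · have h5 : hom P m (p k) (q k) ≠ 0 := by
      intro h6
      rw [h6, zero_sub, dvd_neg] at h2
      have h7 : IsUnit (q k) := (D.hcop k).symm.pow_right.isUnit_of_dvd' dvd_rfl h2
      rw [Int.isUnit_iff] at h7
      have := D.hp k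
      have := D.hpq k
      omega
    have h6 : (1:ℝ) ≤ |(hom P m (p k) (q k) : ℝ)| := by exact_mod_cast Int.one_le_abs h5
    refine le_trans ?_ h6
    have h7 : (q k : ℝ) ^ (-t) * (q k : ℝ) ^ m ≤ 1 := by
      rw [← Real.rpow_natCast, ← Real.rpow_add hQ]
      apply Real.rpow_le_one_of_one_le_of_nonpos hQ1
      have h8 : (m:ℝ) + 1 ≤ n := by exact_mod_cast hlt
      have := D.ht1
      linarith
    calc min c0 1 * (q k : ℝ) ^ (-t) * (q k : ℝ) ^ m
        = min c0 1 * ((q k : ℝ) ^ (-t) * (q k : ℝ) ^ m) := by ring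
      _ ≤ 1 * 1 := by
        have := min_le_right c0 1
        gcongr
      _ = 1 := by ring
  · have h5 : |N k| ≤ |hom P m (p k) (q k)| := by
      have h6 : q k ∣ hom P m (p k) (q k) - N k := by
        have h7 := dvd_add h2 (heq ▸ D.hN k)
        have h8 : hom P m (p k) (q k) - p k ^ m + (p k ^ m - N k)
            = hom P m (p k) (q k) - N k := by ring
        rwa [h8] at h7
      by_cases h7 : hom P m (p k) (q k) - N k = 0
      · rw [sub_eq_zero.mp h7]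
      · have h8 : q k ≤ |hom P m (p k) (q k) - N k| :=
          Int.le_of_dvd (abs_pos.mpr h7) ((dvd_abs _ _).mpr h6)
        have h9 := abs_sub (hom P m (p k) (q k)) (N k)
        have h10 := D.hN3 k
        linarith
    have h6 : |(N k : ℝ)| ≤ |(hom P m (p k) (q k) : ℝ)| := by exact_mod_cast h5
    refine le_trans ?_ h6
    refine le_trans ?_ (D.hN1 k)
    have h7 : (q k : ℝ) ^ (-t) * (q k : ℝ) ^ m = (q k : ℝ) ^ ((n:ℝ) - t) := by
      rw [← Real.rpow_natCast, ← Real.rpow_add hQ, heq]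
      congr 1; ring
    rw [mul_assoc, h7]
    gcongr
    exact min_le_left _ _

lemma s_pos : 0 < w + 1 - t := by
  have := D.ht2; have := D.hw; have := D.n_two; linarith

lemma t_pos : 0 < t := by
  have := D.ht1; have := D.n_two; linarith

/-- Nothing above `t / (w + 1 - t)`. -/
lemma not_hat {v : ℝ} (hv : t / (w + 1 - t) < v) :
    ¬ ∀ᶠ X : ℝ in atTop, ∃ P : ℤ[X], P.Monic ∧ P.natDegree ≤ n ∧ (ht P : ℝ) ≤ X ∧
      |aeval z P| ≤ X ^ (-v) := by
  intro hX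
  have hs := D.s_pos
  have hC0 : 0 < C0 := by linarith [D.hC0]
  have hK : 0 < K1 n := by linarith [D.K1_ge]
  have hc0 := D.hc0
  set c1 : ℝ := min c0 1 with hc1
  have hc1pos : 0 < c1 := by positivity
  set δ : ℝ := c1 / (2 * K1 n * C0) with hδ
  have hδpos : 0 < δ := by positivity
  have htend : Tendsto (fun k => δ * (q k : ℝ) ^ (w + 1 - t)) atTop atTop :=
    ((tendsto_rpow_atTop hs).comp D.q_tendsto).const_mul_atTop hδpos
  have hexp : 0 < (w + 1 - t) * v - t := by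
    rw [div_lt_iff₀ hs] at hv; linarith
  obtain ⟨k, ⟨P, hPm, hPd, hPh, hPv⟩, hk2⟩ :=
    ((htend.eventually hX).and (D.ev (δ ^ (-v) * 2 / c1 + 1) hexp)).exists
  have hQ := D.Q_pos k
  have h1 := D.monic_low k hPm hPd
  have h2 := D.transfer hPd k
  have h3 : K1 n * ht P * (C0 * (q k : ℝ) ^ (-(w+1))) ≤ c1 / 2 * (q k : ℝ) ^ (-t) := by
    calc K1 n * ht P * (C0 * (q k : ℝ) ^ (-(w+1)))
        ≤ K1 n * (δ * (q k : ℝ) ^ (w + 1 - t)) * (C0 * (q k : ℝ) ^ (-(w+1))) := by gcongr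
      _ = (K1 n * δ * C0) * ((q k : ℝ) ^ (w + 1 - t) * (q k : ℝ) ^ (-(w+1))) := by ring
      _ = c1 / 2 * (q k : ℝ) ^ (-t) := by
        rw [← Real.rpow_add hQ, show w + 1 - t + -(w+1) = -t by ring, hδ]
        congr 1
        field_simp
  have h4 : c1 / 2 * (q k : ℝ) ^ (-t) ≤ |aeval z P| := by
    have := abs_sub_abs_le_abs_sub (aeval ((p k : ℝ) / q k) P) (aeval z P)
    rw [abs_sub_comm (aeval ((p k : ℝ) / q k) P)] at this
    linarith
  have h5 := h4.trans hPv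
  rw [Real.mul_rpow hδpos.le (by positivity), ← Real.rpow_mul hQ.le] at h5
  have h6 : (q k : ℝ) ^ ((w + 1 - t) * v - t) ≤ δ ^ (-v) * 2 / c1 := by
    have h7 : (q k : ℝ) ^ ((w + 1 - t) * v - t) =
        (q k : ℝ) ^ (-t) * (q k : ℝ) ^ ((w + 1 - t) * v) := by
      rw [← Real.rpow_add hQ]; congr 1; ring
    have h8 : (q k : ℝ) ^ ((w + 1 - t) * -v) * (q k : ℝ) ^ ((w + 1 - t) * v) = 1 := by
      rw [← Real.rpow_add hQ, show (w + 1 - t) * -v + (w + 1 - t) * v = 0 by ring,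
        Real.rpow_zero]
    rw [h7, le_div_iff₀ hc1pos]
    calc (q k : ℝ) ^ (-t) * (q k : ℝ) ^ ((w + 1 - t) * v) * c1
        = 2 * ((c1 / 2 * (q k : ℝ) ^ (-t)) * (q k : ℝ) ^ ((w + 1 - t) * v)) := by ring
      _ ≤ 2 * ((δ ^ (-v) * (q k : ℝ) ^ ((w + 1 - t) * -v)) * (q k : ℝ) ^ ((w + 1 - t) * v)) := by
        gcongr
      _ = δ ^ (-v) * 2 * ((q k : ℝ) ^ ((w + 1 - t) * -v) * (q k : ℝ) ^ ((w + 1 - t) * v)) := by
        ring
      _ = δ ^ (-v) * 2 := by rw [h8, mul_one]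
  linarith

end Data

lemma ht_add_le (P Q : ℤ[X]) : (ht (P + Q) : ℝ) ≤ ht P + ht Q := by
  apply ht_le
  intro i
  rw [coeff_add, Int.cast_add]
  exact (abs_add_le _ _).trans (add_le_add (abs_coeff_le P i) (abs_coeff_le Q i))

lemma ht_C_mul_le (M : ℤ) (P : ℤ[X]) : (ht (C M * P) : ℝ) ≤ |(M : ℝ)| * ht P := by
  apply ht_le
  intro i
  rw [coeff_C_mul, Int.cast_mul, abs_mul]
  have := abs_coeff_le P i
  gcongr

lemma addlin {n : ℕ} (hn : 2 ≤ n) {B : ℤ[X]} (hB : B.Monic) (hd : B.natDegree = n)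
    {p q : ℤ} (hp : 0 < p) (hpq : p < q) (M : ℤ) :
    (B + C M * lin p q).Monic ∧ (B + C M * lin p q).natDegree = n ∧
    ((ht (B + C M * lin p q) : ℕ) : ℝ) ≤ ht B + |(M:ℝ)| * q := by
  have h1 : (C M * lin p q).natDegree ≤ 1 := (natDegree_C_mul_le _ _).trans (natDegree_lin_le _ _)
  have h2 : (C M * lin p q).degree < B.degree := by
    refine lt_of_le_of_lt degree_le_natDegree ?_
    rw [degree_eq_natDegree hB.ne_zero, hd]
    exact_mod_cast lt_of_le_of_lt h1 (by omega)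
  refine ⟨hB.add_of_left h2, ?_, ?_⟩
  · rw [natDegree_add_eq_left_of_degree_lt h2, hd]
  · refine (ht_add_le _ _).trans ?_
    have h3 := ht_C_mul_le M (lin p q)
    rw [ht_lin hp hpq] at h3
    linarith

lemma aeval_addlin (B : ℤ[X]) (M p q : ℤ) (x : ℝ) :
    aeval x (B + C M * lin p q) = aeval x B + M * (q * x - p) := by
  rw [map_add, map_mul, aeval_lin, aeval_C]
  simp

lemma derivative_addlin (B : ℤ[X]) (M p q : ℤ) (x : ℝ) :
    aeval x (derivative (B + C M * lin p q)) = aeval x (derivative B) + M * q := by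
  rw [derivative_add, derivative_C_mul, lin, derivative_sub, derivative_C_mul, derivative_X,
    derivative_C]
  simp

namespace Data

variable {n : ℕ} {w g t c0 C0 : ℝ} {p q N : ℕ → ℤ} {z : ℝ} (D : Data n w g t c0 C0 p q N z)

include D

lemma near {P : ℤ[X]} (hm : P.Monic) (hd : P.natDegree ≤ n) {E : ℝ} (hE : 0 < E)
    (hE' : E ≤ |aeval z (derivative P)|) (h1 : 2 * |aeval z P| ≤ E)
    (h2 : 4 * K2 n * ht P * |aeval z P| < E ^ 2) :
    ∃ (a : ℝ) (R : ℤ[X]), R.Monic ∧ Irreducible R ∧ aeval a R = 0 ∧ R.natDegree ≤ n ∧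
      (ht R : ℝ) ≤ G n * ht P ∧ |z - a| ≤ 2 * |aeval z P| / E := by
  obtain ⟨a, ha, hza⟩ := exists_real_root hd D.abs_z hE hE' h1 h2
  obtain ⟨R, hR1, hR2, hR3, hR4, hR5⟩ := exists_minpoly hm hd ha
  exact ⟨a, R, hR1, hR2, hR3, hR4, hR5, hza⟩

lemma step1 : ∃ A1 A2 : ℝ, 1 ≤ A1 ∧ 0 < A2 ∧ ∀ k, ∃ P : ℤ[X], P.Monic ∧ P.natDegree = n ∧
    (ht P : ℝ) ≤ A1 * q k ∧ |aeval z P| ≤ A2 * (q k : ℝ) ^ (-t) ∧
    c0 * (q k : ℝ) ^ (-t) - A2 * (q k : ℝ) ^ (-w) ≤ |aeval z P| ∧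
    (q k : ℝ) ≤ |aeval z (derivative P)| := by
  have hK := D.K1_ge
  have hn2 := D.n_two
  have hC0 := D.hC0
  set M : ℤ := ⌈K1 n * n⌉ + 1 with hM
  have hM1 : K1 n * n + 1 ≤ (M:ℝ) := by
    rw [hM]; push_cast; linarith [Int.le_ceil (K1 n * n)]
  have hKn : 0 ≤ K1 n * n := by positivity
  have hM0 : (0:ℝ) ≤ M := by linarith
  set A1 : ℝ := n + M with hA1
  have hA1' : 1 ≤ A1 := by linarith
  set A2 : ℝ := C0 + K1 n * A1 * C0 with hA2
  have hA20 : 0 ≤ K1 n * A1 * C0 := by positivity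
  refine ⟨A1, A2, hA1', by linarith, fun k => ?_⟩
  have hQ := D.Q_pos k
  have hQ1 := D.Q_one k
  have hNq : |N k| ≤ q k := by
    have h1 := D.hN3 k
    have h2 := abs_nonneg (N k)
    linarith
  obtain ⟨B, hB1, hB2, hB3, hB4⟩ := exists_base D.hn (D.hp k) (D.hpq k) (D.hcop k) (D.hN k) hNq
  obtain ⟨hP1, hP2, hP3⟩ := addlin D.hn hB1 hB2 (D.hp k) (D.hpq k) M
  set P := B + C M * lin (p k) (q k) with hP
  have hht : (ht P : ℝ) ≤ A1 * q k := by
    refine hP3.trans ?_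
    rw [abs_of_nonneg hM0, hA1, add_mul]
    linarith
  have hval : aeval ((p k : ℝ) / q k) P = N k / (q k : ℝ) ^ n := by
    rw [hP, aeval_addlin, mul_div_cancel₀ _ hQ.ne', sub_self, mul_zero, add_zero,
      eq_div_iff (pow_pos hQ n).ne', mul_comm]
    exact hB4
  have hqn : (q k : ℝ) ^ (-t) * (q k : ℝ) ^ n = (q k : ℝ) ^ ((n:ℝ) - t) := by
    rw [← Real.rpow_natCast, ← Real.rpow_add hQ]
    congr 1; ring
  have hv1 : c0 * (q k : ℝ) ^ (-t) ≤ |aeval ((p k : ℝ) / q k) P| := by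
    rw [hval, abs_div, abs_of_pos (pow_pos hQ n), le_div_iff₀ (pow_pos hQ n), mul_assoc, hqn]
    exact D.hN1 k
  have hv2 : |aeval ((p k : ℝ) / q k) P| ≤ C0 * (q k : ℝ) ^ (-t) := by
    rw [hval, abs_div, abs_of_pos (pow_pos hQ n), div_le_iff₀ (pow_pos hQ n), mul_assoc, hqn]
    exact D.hN2 k
  have htr := D.transfer (P := P) hP2.le k
  have htr2 : K1 n * ht P * (C0 * (q k : ℝ) ^ (-(w+1))) ≤ K1 n * A1 * C0 * (q k : ℝ) ^ (-w) := by
    have h2 : (q k : ℝ) ^ (-w) = (q k : ℝ) ^ (-(w+1)) * q k := by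
      rw [← Real.rpow_add_one hQ.ne']; congr 1; ring
    rw [h2]
    calc K1 n * ht P * (C0 * (q k : ℝ) ^ (-(w+1)))
        ≤ K1 n * (A1 * q k) * (C0 * (q k : ℝ) ^ (-(w+1))) := by gcongr
      _ = _ := by ring
  have hwt : (q k : ℝ) ^ (-w) ≤ (q k : ℝ) ^ (-t) := by
    apply Real.rpow_le_rpow_of_exponent_le hQ1
    have := D.ht2; have := D.hw; linarith
  have hwpos : 0 ≤ (q k : ℝ) ^ (-w) := by positivity
  refine ⟨P, hP1, hP2, hht, ?_, ?_, ?_⟩
  · have h1 := abs_sub_abs_le_abs_sub (aeval z P) (aeval ((p k : ℝ) / q k) P)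
    have h2 : K1 n * A1 * C0 * (q k : ℝ) ^ (-w) ≤ K1 n * A1 * C0 * (q k : ℝ) ^ (-t) := by
      gcongr
    rw [hA2, add_mul]
    linarith
  · have h1 := abs_sub_abs_le_abs_sub (aeval ((p k : ℝ) / q k) P) (aeval z P)
    rw [abs_sub_comm (aeval ((p k : ℝ) / q k) P)] at h1
    have h2 : K1 n * A1 * C0 * (q k : ℝ) ^ (-w) ≤ A2 * (q k : ℝ) ^ (-w) := by
      gcongr
      rw [hA2]; linarith
    linarith
  · rw [hP, derivative_addlin]
    have h1 := derivative_le (P := B) hB2.le (y := z) (by linarith [D.abs_z])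
    have h2 : |aeval z (derivative B)| ≤ K1 n * n * q k := by
      refine h1.trans ?_
      have h3 : K1 n * ht B ≤ K1 n * (n * q k) := by gcongr
      linarith
    have h3 : (M:ℝ) * q k - |aeval z (derivative B)| ≤ |aeval z (derivative B) + M * q k| := by
      have h4 := abs_sub_abs_le_abs_sub ((M:ℝ) * q k) (-aeval z (derivative B))
      rw [abs_neg, sub_neg_eq_add, abs_of_nonneg (by positivity : (0:ℝ) ≤ M * q k),
        add_comm ((M:ℝ) * q k)] at h4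
      exact h4
    have h5 : (K1 n * n + 1) * q k ≤ M * q k := by gcongr
    linarith

lemma step2 : ∃ A5 a4 : ℝ, 0 < A5 ∧ 0 < a4 ∧ ∀ᶠ k in atTop, ∃ P : ℤ[X], P.Monic ∧
    P.natDegree = n ∧ (ht P : ℝ) ≤ A5 * (q k : ℝ) ^ (w + 1 - t) ∧
    |aeval z P| ≤ C0 * (q k : ℝ) ^ (-w) ∧
    a4 * (q k : ℝ) ^ (w + 1 - t) ≤ |aeval z (derivative P)| := by
  obtain ⟨A1, A2, hA1, hA2, hstep⟩ := D.step1
  have hK := D.K1_ge
  have hn2 := D.n_two
  have hC0 : 0 < C0 := by linarith [D.hC0]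
  have hc0 := D.hc0
  have hwt : 0 < w - t := by have := D.ht2; have := D.hw; linarith
  set A5 : ℝ := A1 + (A2 / c0 + 1) with hA5
  set a4 : ℝ := c0 / (8 * C0) with ha4
  have ha4pos : 0 < a4 := by positivity
  refine ⟨A5, a4, by positivity, ha4pos, ?_⟩
  filter_upwards [D.ev (2 * A2 / c0) hwt, D.ev (4 * C0 / c0) hwt,
    D.ev (8 * C0 * K1 n * A1 / c0) hwt] with k hk1 hk2 hk3
  obtain ⟨P, hP1, hP2, hP3, hP4, hP5, hP6⟩ := hstep k
  have hQ := D.Q_pos k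
  have hQ1 := D.Q_one k
  have heta1 := D.eta_low k
  have heta2 := D.eta_up k
  have hwpos : 0 < (q k : ℝ) ^ (-w) := by positivity
  set e := (q k : ℝ) * z - p k with he
  have hepos : 0 < |e| := lt_of_lt_of_le (by positivity) heta1
  have hene : e ≠ 0 := abs_pos.mp hepos
  set W : ℝ := (q k : ℝ) ^ (w - t) with hW
  have hWpos : 0 < W := by positivity
  have hW1 : 1 ≤ W := Real.one_le_rpow hQ1 hwt.le
  have hWt : (q k : ℝ) ^ (-t) = W * (q k : ℝ) ^ (-w) := by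
    rw [hW, ← Real.rpow_add hQ]; congr 1; ring
  have hWs : (q k : ℝ) ^ (w + 1 - t) = W * q k := by
    rw [hW, ← Real.rpow_add_one hQ.ne']; congr 1; ring
  rw [div_le_iff₀ hc0] at hk1 hk2 hk3
  set x : ℝ := aeval z P / e with hx
  set M : ℤ := -⌊x⌋ with hM
  obtain ⟨hR1, hR2, hR3⟩ := addlin D.hn hP1 hP2 (D.hp k) (D.hpq k) M
  -- size of x
  have hxabs : |x| = |aeval z P| / |e| := by rw [hx, abs_div]
  have hxup : |x| ≤ A2 / c0 * W := by
    rw [hxabs, div_le_iff₀ hepos]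
    calc |aeval z P| ≤ A2 * (W * (q k : ℝ) ^ (-w)) := by rw [← hWt]; exact hP4
      _ = A2 / c0 * W * (c0 * (q k : ℝ) ^ (-w)) := by field_simp
      _ ≤ _ := by gcongr
  have hPlow : c0 / 2 * (W * (q k : ℝ) ^ (-w)) ≤ |aeval z P| := by
    refine le_trans ?_ hP5
    rw [hWt]
    have h1 : A2 * (q k : ℝ) ^ (-w) ≤ (W * c0 / 2) * (q k : ℝ) ^ (-w) := by
      gcongr; linarith
    nlinarith
  have hxlow : c0 / (2 * C0) * W ≤ |x| := by
    rw [hxabs, le_div_iff₀ hepos]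
    calc c0 / (2 * C0) * W * |e| ≤ c0 / (2 * C0) * W * (C0 * (q k : ℝ) ^ (-w)) := by gcongr
      _ = c0 / 2 * (W * (q k : ℝ) ^ (-w)) := by field_simp
      _ ≤ _ := hPlow
  have hfl1 := Int.floor_le x
  have hfl2 := Int.lt_floor_add_one x
  have hMx : |(M:ℝ) + x| ≤ 1 := by
    rw [hM]; push_cast
    rw [abs_le]; constructor <;> linarith
  have hMup : |(M:ℝ)| ≤ (A2 / c0 + 1) * W := by
    have h1 : |(M:ℝ)| ≤ |(M:ℝ) + x| + |x| := by
      have h2 : (M:ℝ) = (M + x) - x := by ring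
      calc |(M:ℝ)| = |((M:ℝ) + x) - x| := by rw [← h2]
        _ ≤ _ := abs_sub _ _
    rw [add_mul]; linarith
  have hMlow : c0 / (4 * C0) * W ≤ |(M:ℝ)| := by
    have h1 : |x| ≤ |(M:ℝ) + x| + |(M:ℝ)| := by
      have h2 : x = (M + x) - M := by ring
      calc |x| = |((M:ℝ) + x) - M| := by rw [← h2]
        _ ≤ _ := abs_sub _ _
    have h3 : 1 ≤ c0 / (4 * C0) * W := by
      rw [div_mul_eq_mul_div, le_div_iff₀ (by positivity)]; linarith
    have h4 : c0 / (2 * C0) * W = c0 / (4 * C0) * W + c0 / (4 * C0) * W := by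
      field_simp; ring
    linarith
  refine ⟨P + C M * lin (p k) (q k), hR1, hR2, ?_, ?_, ?_⟩
  · refine hR3.trans ?_
    rw [hWs, hA5]
    have h1 : A1 * (q k : ℝ) ≤ A1 * (W * q k) := by
      have : (q k : ℝ) ≤ W * q k := by nlinarith
      gcongr
    have h2 : |(M:ℝ)| * q k ≤ (A2 / c0 + 1) * W * q k := by gcongr
    calc (ht P : ℝ) + |(M:ℝ)| * q k ≤ A1 * (W * q k) + (A2 / c0 + 1) * W * q k := by linarith
      _ = _ := by ring
  · rw [aeval_addlin, ← he]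
    have h1 : aeval z P + M * e = (M + x) * e := by
      rw [hx]; field_simp; ring
    rw [h1, abs_mul]
    calc |(M:ℝ) + x| * |e| ≤ 1 * |e| := by gcongr
      _ = |e| := one_mul _
      _ ≤ _ := heta2
  · rw [derivative_addlin, hWs]
    have h1 := derivative_le (P := P) hP2.le (y := z) (by linarith [D.abs_z])
    have h2 : |aeval z (derivative P)| ≤ K1 n * (A1 * q k) := by
      refine h1.trans ?_
      gcongr
    have h3 : |(M:ℝ) * q k| - |aeval z (derivative P)| ≤ |aeval z (derivative P) + M * q k| := by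
      have h4 := abs_sub_abs_le_abs_sub ((M:ℝ) * q k) (-aeval z (derivative P))
      rw [abs_neg, sub_neg_eq_add, add_comm ((M:ℝ) * q k)] at h4
      exact h4
    rw [abs_mul, abs_of_pos hQ] at h3
    have h5 : c0 / (4 * C0) * W * q k ≤ |(M:ℝ)| * q k := by gcongr
    have h6 : K1 n * (A1 * q k) ≤ c0 / (8 * C0) * W * q k := by
      have h7 : K1 n * A1 ≤ c0 / (8 * C0) * W := by
        rw [div_mul_eq_mul_div, le_div_iff₀ (by positivity)]; linarith
      calc K1 n * (A1 * q k) = (K1 n * A1) * q k := by ring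
        _ ≤ _ := by gcongr
    have h8 : c0 / (4 * C0) * W * q k = a4 * (W * q k) + c0 / (8 * C0) * W * q k := by
      rw [ha4]; field_simp; ring
    linarith


end Data

/-- The property in the definition of the starred exponent at `x`, with real numbers. -/
def SOK (n : ℕ) (z v x : ℝ) : Prop := ∃ (a : ℝ) (R : ℤ[X]), R.Monic ∧ Irreducible R ∧
  aeval a R = 0 ∧ R.natDegree ≤ n ∧ (ht R : ℝ) ≤ x ∧ |z - a| ≤ (ht R : ℝ)⁻¹ * x ^ (-v)

lemma final_ineq {Q B s v c u : ℝ} (hQ : 0 < Q) (hB : 0 < B)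
    (hc : c * B ^ v ≤ Q ^ (u - s * v)) : c * Q ^ (-u) ≤ (B * Q ^ s) ^ (-v) := by
  have h1 : (B * Q ^ s) ^ (-v) = B ^ (-v) * Q ^ (-(s * v)) := by
    rw [Real.mul_rpow hB.le (by positivity), ← Real.rpow_mul hQ.le]
    congr 2; ring
  have h2 : B ^ v * B ^ (-v) = 1 := by rw [← Real.rpow_add hB]; simp
  have h3 : Q ^ (u - s * v) * Q ^ (-u) = Q ^ (-(s * v)) := by
    rw [← Real.rpow_add hQ]; congr 1; ring
  calc c * Q ^ (-u) = (c * B ^ v) * (B ^ (-v) * Q ^ (-u)) := by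
        calc c * Q ^ (-u) = c * 1 * Q ^ (-u) := by ring
          _ = c * (B ^ v * B ^ (-v)) * Q ^ (-u) := by rw [h2]
          _ = _ := by ring
    _ ≤ Q ^ (u - s * v) * (B ^ (-v) * Q ^ (-u)) := by gcongr
    _ = B ^ (-v) * (Q ^ (u - s * v) * Q ^ (-u)) := by ring
    _ = _ := by rw [h3, h1]

lemma sok_of {n : ℕ} {z v x a Y c u : ℝ} {R : ℤ[X]} (hR1 : R.Monic) (hR2 : Irreducible R)
    (hR3 : aeval a R = 0) (hR4 : R.natDegree ≤ n) (hx : 0 < x) (hRx : (ht R : ℝ) ≤ x)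
    (hxY : x ≤ Y) (hv : 0 ≤ v) (hc : ht R * |z - a| ≤ c * u) (hcY : c * u ≤ Y ^ (-v)) :
    SOK n z v x := by
  refine ⟨a, R, hR1, hR2, hR3, hR4, hRx, ?_⟩
  have h1 : (1:ℝ) ≤ ht R := one_le_ht hR1.ne_zero
  have h2 : Y ^ (-v) ≤ x ^ (-v) := Real.rpow_le_rpow_of_nonpos hx hxY (by linarith)
  rw [inv_mul_eq_div, le_div_iff₀ (by linarith), mul_comm]
  exact hc.trans (hcY.trans h2)

namespace Data

variable {n : ℕ} {w g t c0 C0 : ℝ} {p q N : ℕ → ℤ} {z : ℝ} (D : Data n w g t c0 C0 p q N z)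

include D

lemma star_ok {v : ℝ} (hv0 : 0 < v) (hv : v < t / (w + 1 - t)) :
    ∀ᶠ x : ℝ in atTop, SOK n z v x := by
  obtain ⟨A1, A2, hA1, hA2, hstep⟩ := D.step1
  obtain ⟨A5, a4, hA5, ha4, hstep2⟩ := D.step2
  have hG := G_pos n
  have hK := D.K1_ge
  have hK2 := K2_nonneg n
  have hn2 := D.n_two
  have hw := D.hw
  have ht2 := D.ht2
  have hg1 := D.hg1
  have hC0 : 0 < C0 := by linarith [D.hC0]
  have hs := D.s_pos
  have htp := D.t_pos
  set s : ℝ := w + 1 - t with hsdef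
  have hA1' : 0 < A1 := by linarith
  have hvs : v * s < t := by rwa [lt_div_iff₀ hs] at hv
  have hgv : g * v < w := by
    have h1 : g * t ≤ w * s := by
      have h2 : g * t ≤ n * g := by nlinarith
      have h3 := D.hg
      have h4 : w * (w - n + 1) ≤ w * s := by
        have : w - n + 1 ≤ s := by rw [hsdef]; linarith
        have : 0 ≤ w := by linarith
        gcongr
      linarith
    have h5 : (g * v) * s < w * s := by nlinarith
    exact lt_of_mul_lt_mul_right h5 hs.le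
  set A : ℝ := G n * A1 with hA
  set B : ℝ := G n * A5 with hB
  have hApos : 0 < A := by positivity
  have hBpos : 0 < B := by positivity
  have h1 : ∀ᶠ k in atTop, ∀ x : ℝ, A * q k ≤ x → x ≤ B * (q k : ℝ) ^ s → SOK n z v x := by
    filter_upwards [D.q_tendsto.eventually_ge_atTop (2 * A2),
      D.q_tendsto.eventually_ge_atTop (4 * K2 n * A1 * A2 + 1),
      D.ev (2 * A2 * A * B ^ v) (by linarith : 0 < t - s * v)] with k hk1 hk2 hk3 x hx1 hx2
    obtain ⟨P, hP1, hP2, hP3, hP4, hP5, hP6⟩ := hstep k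
    have hQ := D.Q_pos k
    have hQ1 := D.Q_one k
    have hQt : (q k : ℝ) ^ (-t) ≤ 1 :=
      Real.rpow_le_one_of_one_le_of_nonpos hQ1 (by linarith)
    have hPA : |aeval z P| ≤ A2 := hP4.trans (by nlinarith)
    have hcond : 4 * K2 n * ht P * |aeval z P| < (q k : ℝ) ^ 2 := by
      calc 4 * K2 n * ht P * |aeval z P| ≤ 4 * K2 n * (A1 * q k) * A2 := by gcongr
        _ = (4 * K2 n * A1 * A2) * q k := by ring
        _ < (q k : ℝ) * q k := by
          apply mul_lt_mul_of_pos_right _ hQ; linarith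
        _ = _ := by ring
    obtain ⟨a, R, hR1, hR2, hR3, hR4, hR5, hR6⟩ := D.near hP1 hP2.le hQ hP6
      (by linarith) hcond
    have hRA : (ht R : ℝ) ≤ A * q k := by
      refine hR5.trans ?_
      rw [hA, mul_assoc]
      gcongr
    have hxpos : 0 < x := lt_of_lt_of_le (by positivity) hx1
    refine sok_of (Y := B * (q k : ℝ) ^ s) (c := 2 * A2 * A) (u := (q k : ℝ) ^ (-t))
      hR1 hR2 hR3 hR4 hxpos (hRA.trans hx1) hx2 hv0.le ?_ (final_ineq hQ hBpos hk3)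
    calc (ht R : ℝ) * |z - a| ≤ (A * q k) * (2 * |aeval z P| / q k) := by gcongr
      _ ≤ (A * q k) * (2 * (A2 * (q k : ℝ) ^ (-t)) / q k) := by gcongr
      _ = _ := by field_simp
  have h2 : ∀ᶠ k in atTop, ∀ x : ℝ, B * (q k : ℝ) ^ s ≤ x → x ≤ A * q (k+1) →
      SOK n z v x := by
    filter_upwards [hstep2, D.ev (2 * C0 / a4) hs,
      D.ev (4 * K2 n * A5 * C0 / a4 ^ 2 + 1) hs,
      D.ev (2 * C0 * B / a4 * (A * C0) ^ v) (by linarith : 0 < w - g * v)]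
      with k hk0 hk1 hk2 hk3 x hx1 hx2
    obtain ⟨P, hP1, hP2, hP3, hP4, hP5⟩ := hk0
    have hQ := D.Q_pos k
    have hQ1 := D.Q_one k
    have hQw : (q k : ℝ) ^ (-w) ≤ 1 :=
      Real.rpow_le_one_of_one_le_of_nonpos hQ1 (by linarith)
    have hQs : 0 < (q k : ℝ) ^ s := by positivity
    have hPA : |aeval z P| ≤ C0 := hP4.trans (by nlinarith)
    have hcond : 4 * K2 n * ht P * |aeval z P| < (a4 * (q k : ℝ) ^ s) ^ 2 := by
      have h3 : 4 * K2 n * A5 * C0 < a4 ^ 2 * (q k : ℝ) ^ s := by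
        have h4 : 4 * K2 n * A5 * C0 / a4 ^ 2 < (q k : ℝ) ^ s := by linarith
        rw [div_lt_iff₀ (by positivity)] at h4
        linarith
      calc 4 * K2 n * ht P * |aeval z P| ≤ 4 * K2 n * (A5 * (q k : ℝ) ^ s) * C0 := by gcongr
        _ = (4 * K2 n * A5 * C0) * (q k : ℝ) ^ s := by ring
        _ < (a4 ^ 2 * (q k : ℝ) ^ s) * (q k : ℝ) ^ s := by
          apply mul_lt_mul_of_pos_right h3 hQs
        _ = _ := by ring
    have hE1 : 2 * |aeval z P| ≤ a4 * (q k : ℝ) ^ s := by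
      rw [div_le_iff₀ ha4] at hk1
      linarith
    obtain ⟨a, R, hR1, hR2, hR3, hR4, hR5, hR6⟩ := D.near hP1 hP2.le (by positivity) hP5
      hE1 hcond
    have hRB : (ht R : ℝ) ≤ B * (q k : ℝ) ^ s := by
      refine hR5.trans ?_
      rw [hB, mul_assoc]
      gcongr
    have hxpos : 0 < x := lt_of_lt_of_le (by positivity) hx1
    have hxY : x ≤ (A * C0) * (q k : ℝ) ^ g := by
      refine hx2.trans ((mul_le_mul_of_nonneg_left (D.hgrow2 k) hApos.le).trans (le_of_eq ?_))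
      ring
    refine sok_of (Y := (A * C0) * (q k : ℝ) ^ g) (c := 2 * C0 * B / a4) (u := (q k : ℝ) ^ (-w))
      hR1 hR2 hR3 hR4 hxpos (hRB.trans hx1) hxY hv0.le ?_
      (final_ineq hQ (by positivity) hk3)
    calc (ht R : ℝ) * |z - a| ≤ (B * (q k : ℝ) ^ s) * (2 * |aeval z P| / (a4 * (q k : ℝ) ^ s)) := by
          gcongr
      _ ≤ (B * (q k : ℝ) ^ s) * (2 * (C0 * (q k : ℝ) ^ (-w)) / (a4 * (q k : ℝ) ^ s)) := by
          gcongr
      _ = _ := by field_simp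
  obtain ⟨k0, hk0⟩ := eventually_atTop.mp (h1.and h2)
  filter_upwards [eventually_ge_atTop (A * q k0)] with x hx
  have hex : ∃ j, x < A * q j := by
    obtain ⟨j, hj⟩ := ((D.q_tendsto.const_mul_atTop hApos).eventually_gt_atTop x).exists
    exact ⟨j, hj⟩
  classical
  obtain ⟨j, hj, hjmin⟩ : ∃ j, x < A * q j ∧ ∀ i < j, ¬ x < A * q i :=
    ⟨Nat.find hex, Nat.find_spec hex, fun i hi => Nat.find_min hex hi⟩
  have hjk : k0 < j := by
    by_contra h
    push Not at h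
    have h3 : (q j : ℝ) ≤ q k0 := by exact_mod_cast D.q_strictMono.monotone h
    have h4 : A * (q j : ℝ) ≤ A * q k0 := by gcongr
    linarith
  obtain ⟨k, rfl⟩ : ∃ k, j = k + 1 := ⟨j - 1, by omega⟩
  have h5 := hjmin k (by omega)
  push Not at h5
  have h6 := hk0 k (by omega)
  rcases le_total x (B * (q k : ℝ) ^ s) with h7 | h7
  · exact h6.1 x h5 h7
  · exact h6.2 x h7 hj.le

lemma star_to_hat {u v : ℝ} (hu : 0 < u) (huv : u < v)
    (h : ∀ᶠ x : ℝ in atTop, ∃ (a : ℂ) (P : ℤ[X]), P.Monic ∧ aeval a P = 0 ∧ P.natDegree ≤ n ∧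
      (ht P : ℝ) ≤ x ∧ ‖(z:ℂ) - a‖ ≤ (ht P : ℝ)⁻¹ * x ^ (-v)) :
    ∀ᶠ x : ℝ in atTop, ∃ P : ℤ[X], P.Monic ∧ P.natDegree ≤ n ∧ (ht P : ℝ) ≤ x ∧
      |aeval z P| ≤ x ^ (-u) := by
  have hvu : 0 < v - u := by linarith
  filter_upwards [h, eventually_ge_atTop 1,
    (tendsto_rpow_atTop hvu).eventually_ge_atTop (K1 n)] with x hx hx1 hxK
  obtain ⟨a, P, hP1, hP2, hP3, hP4, hP5⟩ := hx
  refine ⟨P, hP1, hP3, hP4, ?_⟩
  have hx0 : 0 < x := by linarith
  have hH : (1:ℝ) ≤ ht P := one_le_ht hP1.ne_zero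
  have hH0 : (0:ℝ) < ht P := by linarith
  have h1 : x ^ (-v) ≤ 1 := Real.rpow_le_one_of_one_le_of_nonpos hx1 (by linarith)
  have h2 : 0 < x ^ (-v) := by positivity
  have h3 : (ht P : ℝ)⁻¹ * x ^ (-v) ≤ 1 := by
    have h4 : (ht P : ℝ)⁻¹ ≤ 1 := inv_le_one_of_one_le₀ hH
    calc (ht P : ℝ)⁻¹ * x ^ (-v) ≤ 1 * 1 := by gcongr
      _ = 1 := by ring
  have h4 := D.abs_le_of_root hP3 hP2 (hP5.trans h3)
  have hK := K1_nonneg n
  calc |aeval z P| ≤ K1 n * ht P * ‖(z:ℂ) - a‖ := h4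
    _ ≤ K1 n * ht P * ((ht P : ℝ)⁻¹ * x ^ (-v)) := by gcongr
    _ = K1 n * x ^ (-v) := by field_simp
    _ ≤ x ^ (v - u) * x ^ (-v) := by gcongr
    _ = x ^ (-u) := by rw [← Real.rpow_add hx0]; congr 1; ring

lemma kappa_pos : 0 < t / (w + 1 - t) := div_pos D.t_pos D.s_pos

lemma hatStar_eq {A : Set ℂ} (hA : ∀ r : ℝ, (r : ℂ) ∈ A) :
    hatStarInt A n z = ((t / (w + 1 - t) : ℝ) : EReal) := by
  have hk := D.kappa_pos
  apply sSup_eq_of
  · intro v hv
    by_contra h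
    push Not at h
    refine D.not_hat (v := (t / (w + 1 - t) + v) / 2) (by linarith) ?_
    refine D.star_to_hat (v := v) (by linarith) (by linarith) ?_
    filter_upwards [hv] with x hx
    obtain ⟨a, -, P, hP1, hP2, hP3, hP4, hP5, hP6⟩ := hx
    exact ⟨a, P, hP1, hP3, hP4, hP5, hP6⟩
  · intro v hv
    refine ⟨max v (t / (w + 1 - t) / 2), ?_, le_max_left _ _⟩
    have h1 : 0 < max v (t / (w + 1 - t) / 2) := lt_of_lt_of_le (by linarith) (le_max_right _ _)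
    have h2 : max v (t / (w + 1 - t) / 2) < t / (w + 1 - t) := max_lt hv (by linarith)
    filter_upwards [D.star_ok h1 h2] with x hx
    obtain ⟨a, R, hR1, hR2, hR3, hR4, hR5, hR6⟩ := hx
    refine ⟨a, hA a, R, hR1, hR2, ?_, hR4, hR5, ?_⟩
    · rw [aeval_ofReal, hR3, Complex.ofReal_zero]
    · rw [← Complex.ofReal_sub, Complex.norm_real, Real.norm_eq_abs]
      exact hR6

lemma hat_eq : hatInt n z = ((t / (w + 1 - t) : ℝ) : EReal) := by
  have hk := D.kappa_pos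
  apply sSup_eq_of
  · intro v hv
    by_contra h
    push Not at h
    exact D.not_hat h hv
  · intro v hv
    refine ⟨max v (t / (w + 1 - t) / 2), ?_, le_max_left _ _⟩
    have h1 : 0 < max v (t / (w + 1 - t) / 2) := lt_of_lt_of_le (by linarith) (le_max_right _ _)
    have h2 : max v (t / (w + 1 - t) / 2) < t / (w + 1 - t) := max_lt hv (by linarith)
    set u := max v (t / (w + 1 - t) / 2) with hu
    refine D.star_to_hat (v := (u + t / (w + 1 - t)) / 2) h1 (by linarith) ?_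
    filter_upwards [D.star_ok (v := (u + t / (w + 1 - t)) / 2) (by linarith) (by linarith)]
      with x hx
    obtain ⟨a, R, hR1, hR2, hR3, hR4, hR5, hR6⟩ := hx
    refine ⟨a, R, hR1, ?_, hR4, hR5, ?_⟩
    · rw [aeval_ofReal, hR3, Complex.ofReal_zero]
    · rw [← Complex.ofReal_sub, Complex.norm_real, Real.norm_eq_abs]
      exact hR6

end Data

/-- One step of the construction. -/
structure Next (n : ℕ) (w g t c1 C1 : ℝ) (V : ℤ → ℤ → ℤ → Prop) (p q p' q' s' : ℤ) : Prop where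
  valid : V p' q' s'
  lo : (q : ℝ) ^ g ≤ q'
  up : (q' : ℝ) ≤ C1 * (q : ℝ) ^ g
  dlo : c1 * (q : ℝ) ^ (-(w+1)) ≤ |(p' : ℝ) / q' - p / q|
  dup : |(p' : ℝ) / q' - p / q| ≤ C1 * (q : ℝ) ^ (-(w+1))
  res : ∃ N : ℤ, q' ∣ p' ^ n - N ∧ c1 * (q' : ℝ) ^ ((n:ℝ) - t) ≤ |(N : ℝ)| ∧
    |(N : ℝ)| ≤ C1 * (q' : ℝ) ^ ((n:ℝ) - t) ∧ 2 * |N| ≤ q'

theorem exists_data {n : ℕ} {w g t c1 C1 : ℝ} (hn : 2 ≤ n) (hw : 2 * (n:ℝ) - 1 ≤ w)
    (hg2 : 2 ≤ g) (hg : n * g ≤ w * (w - n + 1)) (ht1 : (n:ℝ) - 1 ≤ t) (ht2 : t ≤ n)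
    (hc1 : 0 < c1) (hC1 : 1 ≤ C1) (V : ℤ → ℤ → ℤ → Prop)
    (V1 : ∀ p q s, V p q s → 0 < p ∧ p < q ∧ IsCoprime p q)
    (V2 : ∀ K : ℝ, ∃ p q s, V p q s ∧ K ≤ q)
    (V3 : ∃ K : ℝ, ∀ p q s, V p q s → K ≤ q → ∃ p1 q1 s1 p2 q2 s2 : ℤ, q1 ≠ q2 ∧
      Next n w g t c1 C1 V p q p1 q1 s1 ∧ Next n w g t c1 C1 V p q p2 q2 s2) :
    ∃ (z : ℝ) (p q N : ℕ → ℤ), Transcendental ℚ z ∧
      Data n w g t (c1/2) (2*C1) p q N z := by
  obtain ⟨K1, hK1⟩ := V3
  have hn2 : (2:ℝ) ≤ n := by exact_mod_cast hn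
  have hw3 : 3 ≤ w := by linarith
  have hC1pos : 0 < C1 := by linarith
  set K0 : ℝ := max (max K1 2) (max (4 * C1 / c1) (4 * C1 ^ 2 + 1)) with hK0
  have hK0a : K1 ≤ K0 := (le_max_left _ _).trans (le_max_left _ _)
  have hK0b : 2 ≤ K0 := (le_max_right _ _).trans (le_max_left _ _)
  have hK0c : 4 * C1 / c1 ≤ K0 := (le_max_left _ _).trans (le_max_right _ _)
  have hK0d : 4 * C1 ^ 2 + 1 ≤ K0 := (le_max_right _ _).trans (le_max_right _ _)
  have hK0pos : 0 < K0 := by linarith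
  -- radii
  set r : ℝ → ℝ := fun x => 2 * C1 * x ^ (-(w+1)) with hr
  let St := {s : ℤ × ℤ × ℤ // V s.1 s.2.1 s.2.2 ∧ K0 ≤ (s.2.1 : ℝ)}
  -- growth in a step
  have hgrow : ∀ {p q p' q' s' : ℤ}, K0 ≤ (q:ℝ) → Next n w g t c1 C1 V p q p' q' s' →
      K0 * q ≤ (q' : ℝ) := by
    intro p q p' q' s' hq hN
    have h1 : (1:ℝ) ≤ q := by linarith
    calc K0 * q ≤ q * q := by gcongr
      _ = (q:ℝ) ^ (2:ℝ) := by rw [Real.rpow_two]; ring
      _ ≤ (q:ℝ) ^ g := Real.rpow_le_rpow_of_exponent_le h1 hg2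
      _ ≤ q' := hN.lo
  have hstep : ∀ (a : ℝ) (s : St), ∃ s' : St,
      Next n w g t c1 C1 V s.1.1 s.1.2.1 s'.1.1 s'.1.2.1 s'.1.2.2 ∧
      r (s'.1.2.1 : ℝ) < |a - (s'.1.1 : ℝ) / s'.1.2.1| := by
    intro a s
    obtain ⟨⟨p, q, σ⟩, hV, hKq⟩ := s
    obtain ⟨p1, q1, s1, p2, q2, s2, hne, hN1, hN2⟩ := hK1 p q σ hV (hK0a.trans hKq)
    have hq1 := hgrow hKq hN1
    have hq2 := hgrow hKq hN2
    have hqpos : (0:ℝ) < q := by simp only at hKq; linarith
    have hKq' : K0 ≤ (q:ℝ) := hKq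
    have hq1K : K0 ≤ (q1:ℝ) := by nlinarith
    have hq2K : K0 ≤ (q2:ℝ) := by nlinarith
    obtain ⟨hp1a, hp1b, hp1c⟩ := V1 _ _ _ hN1.valid
    obtain ⟨hp2a, hp2b, hp2c⟩ := V1 _ _ _ hN2.valid
    have hQ1 : (0:ℝ) < q1 := by linarith
    have hQ2 : (0:ℝ) < q2 := by linarith
    -- separation
    have hdet : p1 * q2 - p2 * q1 ≠ 0 := by
      intro h
      have h1 : p1 * q2 = p2 * q1 := by linarith
      have h2 : q1 ∣ q2 := by
        apply hp1c.symm.dvd_of_dvd_mul_left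
        rw [h1]; exact Dvd.intro_left _ rfl
      have h3 : q2 ∣ q1 := by
        apply hp2c.symm.dvd_of_dvd_mul_left
        rw [← h1]; exact Dvd.intro_left _ rfl
      exact hne (Int.dvd_antisymm (by omega) (by omega) h2 h3)
    have hdist : 1 / ((q1:ℝ) * q2) ≤ |(p1:ℝ)/q1 - p2/q2| := by
      rw [div_sub_div _ _ hQ1.ne' hQ2.ne', abs_div, abs_of_pos (mul_pos hQ1 hQ2)]
      gcongr
      have : (1:ℤ) ≤ |p1 * q2 - p2 * q1| := Int.one_le_abs hdet
      have h2 : (1:ℝ) ≤ |((p1 * q2 - p2 * q1 : ℤ) : ℝ)| := by exact_mod_cast this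
      push_cast at h2
      rwa [mul_comm (q1:ℝ) p2]
    have hsmall : r q1 + r q2 < 1 / ((q1:ℝ) * q2) := by
      rw [lt_div_iff₀ (mul_pos hQ1 hQ2)]
      have haux : ∀ x y : ℝ, K0 ≤ x → K0 ≤ y → y ≤ C1 * x → r x * (x * y) ≤ 2 * C1 ^ 2 / K0 := by
        intro x y hx hy hxy
        have hx0 : 0 < x := by linarith
        have hx1 : 1 ≤ x := by linarith
        have h1 : x ^ (-(w+1)) * (x * x) ≤ 1 / K0 := by
          have h2 : x ^ (-(w+1)) * (x * x) = x ^ (-(w+1) + 2) := by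
            rw [Real.rpow_add hx0, Real.rpow_two]; ring
          rw [h2]
          calc x ^ (-(w+1) + 2) ≤ x ^ (-1:ℝ) := by
                apply Real.rpow_le_rpow_of_exponent_le hx1; linarith
            _ = 1 / x := by rw [Real.rpow_neg_one, one_div]
            _ ≤ 1 / K0 := by gcongr
        calc r x * (x * y) = 2 * C1 * (x ^ (-(w+1)) * (x * y)) := by rw [hr]; ring
          _ ≤ 2 * C1 * (x ^ (-(w+1)) * (x * (C1 * x))) := by gcongr
          _ = 2 * C1 ^ 2 * (x ^ (-(w+1)) * (x * x)) := by ring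
          _ ≤ 2 * C1 ^ 2 * (1 / K0) := by gcongr
          _ = _ := by ring
      have hlow : ∀ {x : ℝ}, (q:ℝ) ^ g ≤ x → C1 * (q:ℝ)^g ≤ C1 * x := fun h => by gcongr
      have e1 := haux q1 q2 hq1K hq2K (hN2.up.trans (hlow hN1.lo))
      have e2 := haux q2 q1 hq2K hq1K (hN1.up.trans (hlow hN2.lo))
      have e3 : 2 * C1 ^ 2 / K0 + 2 * C1 ^ 2 / K0 < 1 := by
        rw [← add_div, div_lt_one hK0pos]; linarith
      calc (r q1 + r q2) * (q1 * q2) = r q1 * (q1 * q2) + r q2 * (q2 * q1) := by ring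
        _ ≤ 2 * C1 ^ 2 / K0 + 2 * C1 ^ 2 / K0 := add_le_add e1 e2
        _ < 1 := e3
    by_cases h : r (q1 : ℝ) < |a - (p1 : ℝ) / q1|
    · exact ⟨⟨(p1, q1, s1), hN1.valid, hq1K⟩, hN1, h⟩
    · refine ⟨⟨(p2, q2, s2), hN2.valid, hq2K⟩, hN2, ?_⟩
      by_contra h'
      push Not at h h'
      simp only at h'
      have h3 : |(p1:ℝ)/q1 - p2/q2| ≤ |a - (p1:ℝ)/q1| + |a - (p2:ℝ)/q2| := by
        have h4 : (p1:ℝ)/q1 - p2/q2 = (a - (p2:ℝ)/q2) - (a - (p1:ℝ)/q1) := by ring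
        rw [h4, add_comm]
        exact abs_sub _ _
      linarith
  -- enumeration of the algebraic numbers
  obtain ⟨e, he⟩ := (Algebraic.countable ℚ ℝ).exists_eq_range ⟨0, isAlgebraic_zero⟩
  choose F hF using hstep
  obtain ⟨pi, qi, si, hVi, hKi⟩ := V2 K0
  let seq : ℕ → St := fun k => Nat.rec (⟨(pi, qi, si), hVi, hKi⟩ : St) (fun k s => F (e k) s) k
  have hseq : ∀ k, Next n w g t c1 C1 V (seq k).1.1 (seq k).1.2.1
      (seq (k+1)).1.1 (seq (k+1)).1.2.1 (seq (k+1)).1.2.2 ∧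
      r ((seq (k+1)).1.2.1 : ℝ) < |e k - ((seq (k+1)).1.1 : ℝ) / (seq (k+1)).1.2.1| :=
    fun k => hF (e k) (seq k)
  set p : ℕ → ℤ := fun k => (seq k).1.1 with hp
  set q : ℕ → ℤ := fun k => (seq k).1.2.1 with hq
  have hV : ∀ k, V (p k) (q k) (seq k).1.2.2 := fun k => (seq k).2.1
  have hKq : ∀ k, K0 ≤ (q k : ℝ) := fun k => (seq k).2.2
  have hnext : ∀ k, Next n w g t c1 C1 V (p k) (q k) (p (k+1)) (q (k+1)) (seq (k+1)).1.2.2 :=
    fun k => (hseq k).1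
  have hqg : ∀ k, K0 * q k ≤ (q (k+1) : ℝ) := fun k => hgrow (hKq k) (hnext k)
  have hQpos : ∀ k, (0:ℝ) < q k := fun k => by linarith [hKq k]
  have hpow : ∀ k, ((q (k+1) : ℤ) : ℝ) ^ (-(w+1)) ≤ K0⁻¹ * (q k : ℝ) ^ (-(w+1)) := by
    intro k
    calc ((q (k+1) : ℤ) : ℝ) ^ (-(w+1)) ≤ (K0 * q k) ^ (-(w+1)) :=
          Real.rpow_le_rpow_of_nonpos (mul_pos hK0pos (hQpos k)) (hqg k) (by linarith)
      _ = K0 ^ (-(w+1)) * (q k : ℝ) ^ (-(w+1)) := Real.mul_rpow hK0pos.le (hQpos k).le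
      _ ≤ K0⁻¹ * (q k : ℝ) ^ (-(w+1)) := by
        have : K0 ^ (-(w+1)) ≤ K0 ^ (-1:ℝ) := by
          apply Real.rpow_le_rpow_of_exponent_le <;> linarith
        rw [Real.rpow_neg_one] at this
        have hnn : 0 ≤ (q k : ℝ) ^ (-(w+1)) := Real.rpow_nonneg (hQpos k).le _
        gcongr
  have hK0inv : K0⁻¹ ≤ 1/2 := by
    rw [one_div]; exact inv_anti₀ (by norm_num) hK0b
  have hnest : ∀ k, Metric.closedBall ((p (k+1) : ℝ)/q (k+1)) (r (q (k+1))) ⊆
      Metric.closedBall ((p k : ℝ)/q k) (r (q k)) := by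
    intro k
    apply Metric.closedBall_subset_closedBall'
    rw [Real.dist_eq]
    have h1 := (hnext k).dup
    have h2 := hpow k
    have h3 : (0:ℝ) ≤ (q k : ℝ) ^ (-(w+1)) := Real.rpow_nonneg (hQpos k).le _
    have h4 : K0⁻¹ * (q k : ℝ) ^ (-(w+1)) ≤ 1/2 * (q k : ℝ) ^ (-(w+1)) := by gcongr
    have h5 : r (q (k+1)) ≤ C1 * (q k : ℝ) ^ (-(w+1)) := by
      calc r (q (k+1)) = 2 * C1 * ((q (k+1) : ℤ) : ℝ) ^ (-(w+1)) := rfl
        _ ≤ 2 * C1 * (1/2 * (q k : ℝ) ^ (-(w+1))) := by gcongr; exact h2.trans h4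
        _ = _ := by ring
    have h6 : r (q k) = C1 * (q k : ℝ) ^ (-(w+1)) + C1 * (q k : ℝ) ^ (-(w+1)) := by
      rw [hr]; ring
    rw [h6]
    exact add_le_add h5 h1
  obtain ⟨z, hz⟩ := IsCompact.nonempty_iInter_of_sequence_nonempty_isCompact_isClosed
    (fun k => Metric.closedBall ((p k : ℝ)/q k) (r (q k))) hnest
    (fun k => ⟨_, Metric.mem_closedBall_self (by
      have : (0:ℝ) ≤ (q k : ℝ) ^ (-(w+1)) := Real.rpow_nonneg (hQpos k).le _
      simp only [hr]; positivity)⟩)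
    (isCompact_closedBall _ _) (fun k => Metric.isClosed_closedBall)
  rw [Set.mem_iInter] at hz
  have hzk : ∀ k, |z - (p k : ℝ)/q k| ≤ r (q k) := fun k => by
    have := hz k
    rw [Metric.mem_closedBall, Real.dist_eq] at this
    exact this
  have htr : Transcendental ℚ z := by
    intro halg
    have h1 : z ∈ Set.range e := by rw [← he]; exact halg
    obtain ⟨k, hk⟩ := h1
    have h2 := (hseq k).2
    rw [hk] at h2
    exact absurd (hzk (k+1)) (not_le.mpr h2)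
  have hV1 : ∀ k, 0 < p k ∧ p k < q k ∧ IsCoprime (p k) (q k) := fun k => V1 _ _ _ (hV k)
  -- q tends to infinity
  have hqpow : ∀ k, (2:ℝ) ^ k ≤ q k := by
    intro k
    induction k with
    | zero => have := hKq 0; simp only [pow_zero]; linarith
    | succ k ih =>
      have h1 := hqg k
      have h2 : 2 * (q k : ℝ) ≤ K0 * q k := by
        have := (hQpos k).le; gcongr
      rw [pow_succ]; linarith
  have hqt : Tendsto (fun k => (q k : ℝ)) atTop atTop :=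
    tendsto_atTop_mono hqpow (tendsto_pow_atTop_atTop_of_one_lt one_lt_two)
  have hrt : Tendsto (fun k => r (q k)) atTop (𝓝 0) := by
    have h1 : Tendsto (fun k => 2 * C1 * (q k : ℝ)⁻¹) atTop (𝓝 (2 * C1 * 0)) :=
      (tendsto_inv_atTop_zero.comp hqt).const_mul _
    rw [mul_zero] at h1
    refine squeeze_zero (fun k => ?_) (fun k => ?_) h1
    · have : (0:ℝ) ≤ (q k : ℝ) ^ (-(w+1)) := Real.rpow_nonneg (hQpos k).le _
      simp only [hr]; positivity
    · have h2 : (q k : ℝ) ^ (-(w+1)) ≤ (q k : ℝ)⁻¹ := by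
        rw [← Real.rpow_neg_one]
        apply Real.rpow_le_rpow_of_exponent_le
        · linarith [hKq k]
        · linarith
      simp only [hr]
      gcongr
  have hlim : Tendsto (fun k => (p k : ℝ)/q k) atTop (𝓝 z) := by
    rw [tendsto_iff_dist_tendsto_zero]
    refine squeeze_zero (fun k => dist_nonneg) (fun k => ?_) hrt
    rw [dist_comm, Real.dist_eq]
    exact hzk k
  have hz0 : 0 ≤ z := ge_of_tendsto' hlim fun k => by
    have h1 : (0:ℝ) < p k := by exact_mod_cast (hV1 k).1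
    exact div_nonneg h1.le (hQpos k).le
  have hz1 : z ≤ 1 := le_of_tendsto' hlim fun k => by
    have h1 : (p k : ℝ) < q k := by exact_mod_cast (hV1 k).2.1
    rw [div_le_one (hQpos k)]; exact h1.le
  choose N hNa hNb hNc hNd using fun k => (hnext k).res
  refine ⟨z, fun k => p (k+1), fun k => q (k+1), N, htr, ?_⟩
  refine
    { hn := hn
      hw := hw
      hg1 := by linarith
      hg := hg
      ht1 := ht1
      ht2 := ht2
      hc0 := by positivity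
      hC0 := by linarith
      hp := fun k => (hV1 (k+1)).1
      hpq := fun k => (hV1 (k+1)).2.1
      hcop := fun k => (hV1 (k+1)).2.2
      hgrow := ?_
      hgrow2 := ?_
      hlow := ?_
      hup := ?_
      hN := hNa
      hN1 := ?_
      hN2 := ?_
      hN3 := hNd
      hz0 := hz0
      hz1 := hz1 }
  · intro k
    have h1 := hqg (k+1)
    have h2 : 2 * (q (k+1) : ℝ) ≤ K0 * q (k+1) := by
      have := (hQpos (k+1)).le; gcongr
    have h3 := h2.trans h1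
    exact_mod_cast h3
  · intro k
    refine (hnext (k+1)).up.trans ?_
    have : (0:ℝ) ≤ ((q (k+1) : ℤ) : ℝ) ^ g := Real.rpow_nonneg (hQpos (k+1)).le _
    nlinarith
  · intro k
    have h1 := (hnext (k+1)).dlo
    have h2 := hzk (k+1+1)
    have h3 := hpow (k+1)
    have h4 : (0:ℝ) ≤ ((q (k+1) : ℤ) : ℝ) ^ (-(w+1)) := Real.rpow_nonneg (hQpos (k+1)).le _
    have h5 : r (q (k+1+1)) ≤ c1/2 * ((q (k+1) : ℤ) : ℝ) ^ (-(w+1)) := by
      calc r (q (k+1+1)) = 2 * C1 * ((q (k+1+1) : ℤ) : ℝ) ^ (-(w+1)) := rfl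
        _ ≤ 2 * C1 * (K0⁻¹ * ((q (k+1) : ℤ) : ℝ) ^ (-(w+1))) := by gcongr
        _ = (2 * C1 * K0⁻¹) * ((q (k+1) : ℤ) : ℝ) ^ (-(w+1)) := by ring
        _ ≤ c1/2 * ((q (k+1) : ℤ) : ℝ) ^ (-(w+1)) := by
          have h6 : 2 * C1 * K0⁻¹ ≤ c1/2 := by
            rw [div_le_iff₀ hc1] at hK0c
            rw [← div_eq_mul_inv, div_le_iff₀ hK0pos]
            linarith
          gcongr
    have h6 : |(p (k+1+1) : ℝ) / q (k+1+1) - p (k+1) / q (k+1)| ≤
        |z - (p (k+1) : ℝ)/q (k+1)| + |z - (p (k+1+1) : ℝ)/q (k+1+1)| := by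
      have h7 : (p (k+1+1) : ℝ) / q (k+1+1) - p (k+1) / q (k+1) =
        (z - (p (k+1) : ℝ)/q (k+1)) - (z - (p (k+1+1) : ℝ)/q (k+1+1)) := by ring
      rw [h7]; exact abs_sub _ _
    linarith
  · intro k
    exact hzk (k+1)
  · intro k
    refine le_trans ?_ (hNb k)
    have : (0:ℝ) ≤ ((q (k+1) : ℤ) : ℝ) ^ ((n:ℝ) - t) := Real.rpow_nonneg (hQpos (k+1)).le _
    nlinarith
  · intro k
    refine (hNc k).trans ?_
    have : (0:ℝ) ≤ ((q (k+1) : ℤ) : ℝ) ^ ((n:ℝ) - t) := Real.rpow_nonneg (hQpos (k+1)).le _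
    nlinarith

section famA

/-- Validity for the first family. -/
def VA (p q _s : ℤ) : Prop := 0 < p ∧ p < q ∧ IsCoprime p q

lemma A_next {n : ℕ} (hn : 2 ≤ n) {w mu : ℝ} (hw : 2 * (n:ℝ) - 1 ≤ w) (hmu1 : 1 ≤ mu)
    (hmu2 : mu ≤ n) {p q j m q' N' : ℤ} (hV : VA p q 0) (hq16 : 16 ≤ q)
    (hm : m = p + q * j) (hm1 : (q:ℝ) ^ mu / 4 ≤ m) (hm2 : (m:ℝ) ≤ (q:ℝ) ^ mu / 4 + 2 * q)
    (hdet : N' * q ^ n - m * q' = 1) (hq1 : (q:ℝ) ^ w ≤ q') (hq2 : (q':ℝ) ≤ 3 * (q:ℝ) ^ w) :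
    Next n w w ((n:ℝ) - 1 + (n - mu) / w) (1/4) 18 VA p q (N' * q ^ (n-1) - j * q') q' 0 := by
  obtain ⟨hp, hpq, hcop⟩ := hV
  have hn2 : (2:ℝ) ≤ n := by exact_mod_cast hn
  have hw0 : 0 < w := by linarith
  have hq0 : 0 < q := by omega
  have hQ16 : (16:ℝ) ≤ q := by exact_mod_cast hq16
  have hQ : (0:ℝ) < q := by linarith
  have hQ1 : (1:ℝ) ≤ q := by linarith
  have hQw : (q:ℝ) ≤ (q:ℝ) ^ w := by
    calc (q:ℝ) = (q:ℝ) ^ (1:ℝ) := (Real.rpow_one _).symm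
      _ ≤ _ := Real.rpow_le_rpow_of_exponent_le hQ1 (by linarith)
  have hQ'16 : (16:ℝ) ≤ q' := by linarith
  have hQ' : (0:ℝ) < q' := by linarith
  have hQ'1 : (1:ℝ) ≤ q' := by linarith
  have hq'16 : 16 ≤ q' := by exact_mod_cast hQ'16
  have hq'0 : 0 < q' := by omega
  set p' := N' * q ^ (n-1) - j * q' with hp'
  have hpow : q ^ n = q ^ (n-1) * q := by
    rw [← pow_succ]; congr 1; omega
  have hdet' : p' * q - p * q' = 1 := by
    rw [hp', ← hdet, hpow, hm]; ring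
  have hdetR : (N':ℝ) * (q:ℝ) ^ n = 1 + m * q' := by
    have : N' * q ^ n = 1 + m * q' := by linarith
    exact_mod_cast this
  have hp'0 : 0 < p' := by
    have h1 : 0 < p' * q := by
      have : 0 < p * q' := mul_pos hp hq'0
      linarith
    exact pos_of_mul_pos_left h1 hq0.le
  have hp'q' : p' < q' := by
    have h1 : p' * q < q' * q := by
      have h2 : p + 1 ≤ q := hpq
      have h3 : (p + 1) * q' ≤ q * q' := by gcongr
      nlinarith
    exact lt_of_mul_lt_mul_right h1 hq0.le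
  have hcop' : IsCoprime p' q' := ⟨q, -p, by linarith⟩
  have hQn : (0:ℝ) < (q:ℝ) ^ n := by positivity
  have hQmu : (0:ℝ) < (q:ℝ) ^ mu := by positivity
  have hmpos : (0:ℝ) < m := by linarith [hm1, hQmu]
  have hQmu1 : (q:ℝ) ≤ (q:ℝ) ^ mu := by
    calc (q:ℝ) = (q:ℝ) ^ (1:ℝ) := (Real.rpow_one _).symm
      _ ≤ _ := Real.rpow_le_rpow_of_exponent_le hQ1 hmu1
  have hN'pos : (0:ℝ) < N' := by
    have h1 : (0:ℝ) < (N':ℝ) * (q:ℝ) ^ n := by rw [hdetR]; positivity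
    exact pos_of_mul_pos_left h1 hQn.le
  -- difference
  have hdiff : (p':ℝ) / q' - p / q = 1 / (q * q') := by
    rw [div_sub_div _ _ hQ'.ne' hQ.ne']
    have h1 : (p':ℝ) * q - q' * p = 1 := by
      have : p' * q - q' * p = 1 := by linarith
      exact_mod_cast this
    rw [h1, mul_comm (q':ℝ)]
  have hQw1 : (q:ℝ) ^ (-(w+1)) = 1 / (q * (q:ℝ) ^ w) := by
    rw [Real.rpow_neg hQ.le, Real.rpow_add_one hQ.ne', one_div, mul_comm]
  have hQwpos : (0:ℝ) < (q:ℝ) ^ w := by positivity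
  set rho : ℝ := (n - mu) / w with hrho
  have hrho0 : 0 ≤ rho := div_nonneg (by linarith) hw0.le
  have hrho1 : rho ≤ 1 := by rw [hrho, div_le_one hw0]; linarith
  have hexp : (n:ℝ) - ((n:ℝ) - 1 + rho) = 1 + -rho := by ring
  have hQrho : (q' : ℝ) ^ ((n:ℝ) - ((n:ℝ) - 1 + rho)) = q' * (q':ℝ) ^ (-rho) := by
    rw [hexp, Real.rpow_add hQ', Real.rpow_one]
  have hQmn : ((q:ℝ) ^ w) ^ (-rho) * (q:ℝ) ^ n = (q:ℝ) ^ mu := by
    rw [← Real.rpow_mul hQ.le, ← Real.rpow_natCast (q:ℝ) n, ← Real.rpow_add hQ]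
    congr 1
    rw [hrho]; field_simp; ring
  have hr1 : (q':ℝ) ^ (-rho) ≤ ((q:ℝ) ^ w) ^ (-rho) :=
    Real.rpow_le_rpow_of_nonpos hQwpos hq1 (by linarith)
  have hr2 : ((q:ℝ) ^ w) ^ (-rho) ≤ 3 * (q':ℝ) ^ (-rho) := by
    have h1 : (3 * (q:ℝ) ^ w) ^ (-rho) ≤ (q':ℝ) ^ (-rho) :=
      Real.rpow_le_rpow_of_nonpos hQ' hq2 (by linarith)
    rw [Real.mul_rpow (by norm_num) hQwpos.le] at h1
    have h2 : (3:ℝ)⁻¹ ≤ 3 ^ (-rho) := by
      rw [← Real.rpow_neg_one]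
      exact Real.rpow_le_rpow_of_exponent_le (by norm_num) (by linarith)
    have h3 : 0 < ((q:ℝ) ^ w) ^ (-rho) := by positivity
    have h4 : (3:ℝ)⁻¹ * ((q:ℝ) ^ w) ^ (-rho) ≤ (q':ℝ) ^ (-rho) := by
      refine le_trans ?_ h1
      gcongr
    linarith
  refine
    { valid := ⟨hp'0, hp'q', hcop'⟩
      lo := hq1
      up := by linarith
      dlo := ?_
      dup := ?_
      res := ⟨N', ?_, ?_, ?_, ?_⟩ }
  · rw [hdiff, hQw1, abs_of_pos (by positivity), div_mul_div_comm, one_mul]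
    apply one_div_le_one_div_of_le (by positivity)
    nlinarith
  · rw [hdiff, hQw1, abs_of_pos (by positivity)]
    have h1 : 1 / ((q:ℝ) * q') ≤ 1 / (q * (q:ℝ) ^ w) := by gcongr
    have h2 : 0 < 1 / ((q:ℝ) * (q:ℝ) ^ w) := by positivity
    linarith
  · have hcqn : IsCoprime q' (q ^ n) := ⟨-m, N', by linarith⟩
    apply hcqn.dvd_of_dvd_mul_left
    have h1 : q ^ n * (p' ^ n - N') = ((1 + p * q') ^ n - 1 ^ n) - m * q' := by
      have h2 : p' * q = 1 + p * q' := by linarith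
      have h3 : N' * q ^ n = 1 + m * q' := by linarith
      calc q ^ n * (p' ^ n - N') = (p' * q) ^ n - N' * q ^ n := by rw [mul_pow]; ring
        _ = _ := by rw [h2, h3, one_pow]; ring
    rw [h1]
    apply dvd_sub
    · have h2 := sub_dvd_pow_sub_pow (1 + p * q') 1 n
      rw [add_sub_cancel_left] at h2
      exact (Dvd.intro_left _ rfl).trans h2
    · exact Dvd.intro_left _ rfl
  · rw [abs_of_pos hN'pos, hQrho]
    have h1 : (q':ℝ) * (q':ℝ) ^ (-rho) * (q:ℝ)^n ≤ q' * (q:ℝ) ^ mu := by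
      calc (q':ℝ) * (q':ℝ) ^ (-rho) * (q:ℝ)^n ≤ (q':ℝ) * ((q:ℝ) ^ w) ^ (-rho) * (q:ℝ)^n := by
            gcongr
        _ = q' * (((q:ℝ) ^ w) ^ (-rho) * (q:ℝ)^n) := by ring
        _ = _ := by rw [hQmn]
    have h2 : 1 / 4 * ((q':ℝ) * (q':ℝ) ^ (-rho)) * (q:ℝ)^n ≤ N' * (q:ℝ)^n := by
      rw [hdetR]
      have h3 : (q:ℝ) ^ mu / 4 * q' ≤ m * q' := by gcongr
      linarith
    exact le_of_mul_le_mul_right h2 hQn
  · rw [abs_of_pos hN'pos, hQrho]
    have h1 : (q:ℝ) ^ mu ≤ 3 * (q':ℝ) ^ (-rho) * (q:ℝ)^n := by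
      rw [← hQmn]; gcongr
    have h2 : (N':ℝ) * (q:ℝ)^n ≤ 18 * ((q':ℝ) * (q':ℝ) ^ (-rho)) * (q:ℝ)^n := by
      rw [hdetR]
      have h3 : (m:ℝ) ≤ 9 / 4 * (q:ℝ) ^ mu := by linarith
      have h4 : (m:ℝ) * q' ≤ 9 / 4 * (q:ℝ) ^ mu * q' := by gcongr
      have h5 : (1:ℝ) ≤ (q:ℝ)^mu * q' := by nlinarith
      have h6 : (q:ℝ) ^ mu * q' ≤ 3 * (q':ℝ) ^ (-rho) * (q:ℝ)^n * q' := by gcongr
      have h7 : 0 ≤ 3 * (q':ℝ) ^ (-rho) * (q:ℝ)^n * q' := by positivity
      nlinarith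
    exact le_of_mul_le_mul_right h2 hQn
  · have h0 : 0 < N' := by exact_mod_cast hN'pos
    rw [abs_of_pos h0]
    have h1 : (q:ℝ) ^ mu ≤ (q:ℝ)^n := by
      rw [← Real.rpow_natCast (q:ℝ) n]
      exact Real.rpow_le_rpow_of_exponent_le hQ1 hmu2
    have h2 : 16 * (q:ℝ) ≤ (q:ℝ)^n := by
      calc 16 * (q:ℝ) ≤ q * q := by gcongr
        _ = (q:ℝ)^2 := by ring
        _ ≤ (q:ℝ)^n := pow_le_pow_right₀ hQ1 hn
    have h3 : (m:ℝ) ≤ 3/8 * (q:ℝ)^n := by linarith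
    have h4 : 2 * (N':ℝ) * (q:ℝ)^n ≤ q' * (q:ℝ)^n := by
      have h5 : 2 * (N':ℝ) * (q:ℝ)^n = 2 + 2 * (m * q') := by rw [mul_assoc, hdetR]; ring
      rw [h5]
      have h6 : (m:ℝ) * q' ≤ 3/8 * (q:ℝ)^n * q' := by gcongr
      have h7 : 16 * 16 ≤ (q:ℝ)^n * q' := by
        have : 16 ≤ (q:ℝ)^n := by linarith
        nlinarith
      linarith
    have h5 : 2 * (N':ℝ) ≤ q' := le_of_mul_le_mul_right h4 hQn
    exact_mod_cast h5

lemma A_step {n : ℕ} (hn : 2 ≤ n) {w mu : ℝ} (hw : 2 * (n:ℝ) - 1 ≤ w) (hmu1 : 1 ≤ mu)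
    (hmu2 : mu ≤ n) (p q s : ℤ) (hV : VA p q s) (hq16 : (16:ℝ) ≤ q) :
    ∃ p1 q1 s1 p2 q2 s2 : ℤ, q1 ≠ q2 ∧
      Next n w w ((n:ℝ) - 1 + (n - mu) / w) (1/4) 18 VA p q p1 q1 s1 ∧
      Next n w w ((n:ℝ) - 1 + (n - mu) / w) (1/4) 18 VA p q p2 q2 s2 := by
  have hV' := hV
  obtain ⟨hp, hpq, hcop⟩ := hV
  have hn2 : (2:ℝ) ≤ n := by exact_mod_cast hn
  have hq16' : 16 ≤ q := by exact_mod_cast hq16
  have hQ : (0:ℝ) < q := by linarith
  have hQ1 : (1:ℝ) ≤ q := by linarith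
  have hq0 : 0 < q := by omega
  set j : ℤ := ⌈(q:ℝ) ^ (mu - 1) / 4⌉ with hj
  have hj1 : (q:ℝ) ^ (mu - 1) / 4 ≤ j := Int.le_ceil _
  have hj2 : (j:ℝ) < (q:ℝ) ^ (mu - 1) / 4 + 1 := Int.ceil_lt_add_one _
  have hQmu : (q:ℝ) ^ mu = q * (q:ℝ) ^ (mu - 1) := by
    rw [mul_comm, ← Real.rpow_add_one hQ.ne']; congr 1; ring
  have hpR : (0:ℝ) < p := by exact_mod_cast hp
  have hpqR : (p:ℝ) < q := by exact_mod_cast hpq
  have hm1 : (q:ℝ) ^ mu / 4 ≤ ((p + q * j : ℤ) : ℝ) := by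
    push_cast; rw [hQmu]
    have : (q:ℝ) * ((q:ℝ) ^ (mu - 1) / 4) ≤ q * j := by gcongr
    linarith
  have hm2 : ((p + q * j : ℤ) : ℝ) ≤ (q:ℝ) ^ mu / 4 + 2 * q := by
    push_cast; rw [hQmu]
    have : (q:ℝ) * j ≤ q * ((q:ℝ) ^ (mu - 1) / 4 + 1) := by gcongr
    linarith
  have hcm : IsCoprime (q ^ n) (p + q * j) := by
    apply IsCoprime.pow_left
    exact (IsCoprime.add_mul_left_left hcop j).symm
  obtain ⟨a, b, hab⟩ := hcm
  have hQn : (0:ℝ) < (q:ℝ) ^ n := by positivity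
  set i : ℤ := ⌈((q:ℝ) ^ w + b) / (q:ℝ) ^ n⌉ with hi
  have hi1 : ((q:ℝ) ^ w + b) / (q:ℝ) ^ n ≤ i := Int.le_ceil _
  have hi2 : (i:ℝ) < ((q:ℝ) ^ w + b) / (q:ℝ) ^ n + 1 := Int.ceil_lt_add_one _
  rw [div_le_iff₀ hQn] at hi1
  have hi2' : ((i:ℝ) - 1) * (q:ℝ) ^ n < (q:ℝ) ^ w + b := by
    rw [← lt_div_iff₀ hQn]; linarith
  have hnw : (q:ℝ) ^ n ≤ (q:ℝ) ^ w := by
    rw [← Real.rpow_natCast]
    exact Real.rpow_le_rpow_of_exponent_le hQ1 (by linarith)
  have key : ∀ l : ℤ, (i:ℝ) ≤ l → (l:ℝ) ≤ i + 1 →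
      Next n w w ((n:ℝ) - 1 + (n - mu) / w) (1/4) 18 VA p q
        ((a + l * (p + q * j)) * q ^ (n-1) - j * (l * q ^ n - b)) (l * q ^ n - b) 0 := by
    intro l hl1 hl2
    refine A_next hn hw hmu1 hmu2 (m := p + q * j) hV' hq16' rfl hm1 hm2 ?_ ?_ ?_
    · calc (a + l * (p + q * j)) * q ^ n - (p + q * j) * (l * q ^ n - b)
          = a * q ^ n + b * (p + q * j) := by ring
        _ = 1 := hab
    · push_cast
      have : (i:ℝ) * (q:ℝ)^n ≤ l * (q:ℝ)^n := by gcongr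
      linarith
    · push_cast
      have h1 : (l:ℝ) * (q:ℝ)^n ≤ (i + 1) * (q:ℝ)^n := by gcongr
      linarith
  refine ⟨_, _, _, _, _, _, ?_, key i le_rfl (by linarith), key (i+1) (by push_cast; linarith)
    (by push_cast; linarith)⟩
  intro h
  have h1 : (i + 1) * q ^ n - i * q ^ n = 0 := by linarith
  have h2 : q ^ n = 0 := by linarith
  have h3 : 0 < q ^ n := by positivity
  omega

theorem famA {n : ℕ} (hn : 2 ≤ n) {w mu : ℝ} (hw : 2 * (n:ℝ) - 1 ≤ w) (hmu1 : 1 ≤ mu)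
    (hmu2 : mu ≤ n) : ∃ (z : ℝ) (p q N : ℕ → ℤ), Transcendental ℚ z ∧
      Data n w w ((n:ℝ) - 1 + (n - mu) / w) (1/4/2) (2*18) p q N z := by
  have hn2 : (2:ℝ) ≤ n := by exact_mod_cast hn
  have hw0 : 0 < w := by linarith
  refine exists_data hn hw (by linarith) ?_ ?_ ?_ (by norm_num) (by norm_num) VA
    (fun p q s h => h) ?_ ⟨16, fun p q s hV hq => A_step hn hw hmu1 hmu2 p q s hV hq⟩
  · nlinarith
  · have : 0 ≤ ((n:ℝ) - mu) / w := div_nonneg (by linarith) hw0.le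
    linarith
  · have : ((n:ℝ) - mu) / w ≤ 1 := by rw [div_le_one hw0]; linarith
    linarith
  · intro K
    refine ⟨1, max 2 ⌈K⌉, 0, ⟨one_pos, lt_of_lt_of_le one_lt_two (le_max_left _ _),
      isCoprime_one_left⟩, ?_⟩
    exact (Int.le_ceil K).trans (by exact_mod_cast le_max_right _ _)

end famA

section famB

/-- Validity for the second family. -/
def VB (n : ℕ) (p q s : ℤ) : Prop :=
  0 < p ∧ p < q ∧ IsCoprime p q ∧ IsCoprime s q ∧ q ∣ p ^ n + s ^ (n-1)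

lemma B_next {n : ℕ} (hn : 2 ≤ n) {w t : ℝ} (hw : 2 * (n:ℝ) - 1 ≤ w)
    (ht1 : (n:ℝ) - 1 + (n - 1) / w ≤ t) (ht2 : t ≤ n)
    {p q s c e : ℤ} (hV : VB n p q s) (hc : Odd c) (hcs : q ∣ c * s - p)
    (hc1 : (q:ℝ) ^ (w / (n - 1)) ≤ c) (hc2 : (c:ℝ) ≤ 5 * (q:ℝ) ^ (w / (n - 1)))
    {a : ℕ} (he : e = 2 ^ a)
    (he1 : (e:ℝ) ≤ ((q:ℝ) ^ (w * n / (n - 1))) ^ ((n - t) / (n - 1)))
    (he2 : ((q:ℝ) ^ (w * n / (n - 1))) ^ ((n - t) / (n - 1)) ≤ 2 * e) :
    ∃ p', Next n w (w * n / (n - 1)) t (1 / (2 ^ n * (2 * 5 ^ n))) (2 * 5 ^ n) (VB n) p q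
      p' (c ^ n + e ^ (n-1) * q ^ n) e := by
  obtain ⟨hp, hpq, hcop, hsq, hdvd⟩ := hV
  have hn2 : (2:ℝ) ≤ n := by exact_mod_cast hn
  have hw0 : 0 < w := by linarith
  have hn1 : (0:ℝ) < n - 1 := by linarith
  have hq0 : 0 < q := by omega
  have hQ : (0:ℝ) < q := by exact_mod_cast hq0
  have hQ1 : (1:ℝ) ≤ q := by exact_mod_cast hq0
  have hq2 : 2 ≤ q := by omega
  obtain ⟨d, rfl⟩ : ∃ d, n = d + 2 := ⟨n - 2, by omega⟩
  have hcast : (((d + 2 : ℕ) : ℝ) - 1) = ((d + 1 : ℕ) : ℝ) := by push_cast; ring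
  simp only [show d + 2 - 1 = d + 1 by omega] at *
  set y : ℝ := (q:ℝ) ^ (w / (((d + 2 : ℕ) : ℝ) - 1)) with hy
  have hypos : 0 < y := by positivity
  have hy1 : 1 ≤ y := Real.one_le_rpow hQ1 (by positivity)
  have hcpos : (0:ℝ) < c := by linarith
  have hcge1 : (1:ℝ) ≤ c := by linarith
  have hc0 : 0 < c := by exact_mod_cast hcpos
  have hc1' : 1 ≤ c := hc0
  have he0 : 0 < e := by rw [he]; positivity
  have heR : (0:ℝ) < e := by exact_mod_cast he0
  have he1' : 1 ≤ e := he0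
  -- coprimality facts
  obtain ⟨r0, hr0⟩ := hcs
  have hcsq : IsCoprime (c * s) q := by
    have h1 : c * s = p + q * r0 := by linarith
    rw [h1]
    exact IsCoprime.add_mul_left_left hcop r0
  have hcq : IsCoprime c q := hcsq.of_mul_left_left
  set q' : ℤ := c ^ (d+2) + e ^ (d+1) * q ^ (d+2) with hq'
  have hqq' : IsCoprime q q' := by
    have h1 : IsCoprime (c ^ (d+2)) q := hcq.pow_left
    have h2 : q' = c ^ (d+2) + q * (e ^ (d+1) * q ^ (d+1)) := by rw [hq']; ring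
    rw [h2]
    exact (IsCoprime.add_mul_left_left h1 _).symm
  have heq' : IsCoprime e q' := by
    have h2c : IsCoprime (2:ℤ) c := by
      obtain ⟨k, hk⟩ := hc
      exact ⟨-k, 1, by rw [hk]; ring⟩
    have h1 : IsCoprime (c ^ (d+2)) e := by
      rw [he]; exact (h2c.pow (m := a) (n := d+2)).symm
    have h2 : q' = c ^ (d+2) + e * (e ^ d * q ^ (d+2)) := by rw [hq']; ring
    rw [h2]
    exact (IsCoprime.add_mul_left_left h1 _).symm
  have hq'pos : 0 < q' := by rw [hq']; positivity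
  have hQ' : (0:ℝ) < q' := by exact_mod_cast hq'pos
  have hcq' : c < q' := by
    have h1 : c ≤ c ^ (d+2) := by
      calc c = c ^ 1 := (pow_one c).symm
        _ ≤ c ^ (d+2) := pow_le_pow_right₀ hc1' (by omega)
    have h2 : 0 < e ^ (d+1) * q ^ (d+2) := by positivity
    rw [hq']; linarith
  have hdv : q ∣ c + p * q' := by
    have h1 : q ∣ s ^ (d+1) * (c + p * c ^ (d+2)) := by
      have h2 : s ^ (d+1) * (c + p * c ^ (d+2)) =
          c * (p ^ (d+2) + s ^ (d+1)) + p * c * ((c * s) ^ (d+1) - p ^ (d+1)) := by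
        rw [mul_pow]; ring
      rw [h2]
      apply dvd_add
      · exact hdvd.mul_left _
      · apply Dvd.dvd.mul_left
        have h3 := sub_dvd_pow_sub_pow (c * s) p (d+1)
        exact (Dvd.intro _ hr0.symm).trans h3
    have h2 : q ∣ c + p * c ^ (d+2) := (hsq.symm.pow_right).dvd_of_dvd_mul_left h1
    have h3 : c + p * q' = (c + p * c ^ (d+2)) + q * (p * e ^ (d+1) * q ^ (d+1)) := by
      rw [hq']; ring
    rw [h3]
    exact dvd_add h2 (Dvd.intro _ rfl)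
  obtain ⟨p', hp'⟩ := hdv
  -- q * p' = c + p * q'
  have hp'0 : 0 < p' := by
    have h1 : 0 < q * p' := by rw [← hp']; positivity
    exact pos_of_mul_pos_right h1 hq0.le
  have hp'q' : p' < q' := by
    have h1 : q * p' < q * q' := by
      rw [← hp']
      have h2 : p + 1 ≤ q := hpq
      have h3 : (p + 1) * q' ≤ q * q' := by gcongr
      linarith
    exact lt_of_mul_lt_mul_left h1 hq0.le
  have hres : q' ∣ p' ^ (d+2) + e ^ (d+1) := by
    apply (hqq'.symm.pow_right (n := d+2)).dvd_of_dvd_mul_left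
    have h1 : q ^ (d+2) * (p' ^ (d+2) + e ^ (d+1)) = ((c + p * q') ^ (d+2) - c ^ (d+2)) + q' := by
      calc q ^ (d+2) * (p' ^ (d+2) + e ^ (d+1))
          = (q * p') ^ (d+2) + e ^ (d+1) * q ^ (d+2) := by rw [mul_pow]; ring
        _ = (c + p * q') ^ (d+2) + e ^ (d+1) * q ^ (d+2) := by rw [hp']
        _ = ((c + p * q') ^ (d+2) - c ^ (d+2)) + (c ^ (d+2) + e ^ (d+1) * q ^ (d+2)) := by ring
        _ = _ := by rw [← hq']
    rw [h1]
    apply dvd_add _ dvd_rfl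
    have h2 := sub_dvd_pow_sub_pow (c + p * q') c (d+2)
    rw [add_sub_cancel_left] at h2
    exact (Dvd.intro_left _ rfl).trans h2
  have hcop' : IsCoprime p' q' := by
    obtain ⟨k, hk⟩ := hres
    have h1 : p' ^ (d+2) = -(e ^ (d+1)) + q' * k := by linarith
    have h2 : IsCoprime (p' ^ (d+2)) q' := by
      rw [h1]
      exact IsCoprime.add_mul_left_left (heq'.pow_left (m := d+1)).neg_left k
    exact (IsCoprime.pow_left_iff (by omega)).mp h2
  -- real estimates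
  set g : ℝ := w * ((d + 2 : ℕ) : ℝ) / (((d + 2 : ℕ) : ℝ) - 1) with hg
  have hgpos : 0 < g := by positivity
  set Qg : ℝ := (q:ℝ) ^ g with hQg
  have hQgpos : 0 < Qg := by positivity
  have hQg1 : 1 ≤ Qg := Real.one_le_rpow hQ1 hgpos.le
  have hyn : y ^ (d+2) = Qg := by
    rw [hy, hQg, ← Real.rpow_natCast, ← Real.rpow_mul hQ.le]
    congr 1
    rw [hg]; ring
  have hyn1 : y ^ (d+1) = (q:ℝ) ^ w := by
    rw [hy, ← Real.rpow_natCast, ← Real.rpow_mul hQ.le, ← hcast]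
    congr 1
    field_simp
  set x : ℝ := Qg ^ ((((d + 2 : ℕ) : ℝ) - t) / (((d + 2 : ℕ) : ℝ) - 1)) with hx
  have hxpos : 0 < x := by positivity
  have hxn : x ^ (d+1) = Qg ^ (((d + 2 : ℕ) : ℝ) - t) := by
    rw [hx, ← Real.rpow_natCast, ← Real.rpow_mul hQgpos.le, ← hcast]
    congr 1
    field_simp
  have hnt0 : 0 ≤ ((d + 2 : ℕ) : ℝ) - t := by linarith
  have hnt1 : ((d + 2 : ℕ) : ℝ) - t ≤ 1 := by
    have : 0 ≤ (((d + 2 : ℕ) : ℝ) - 1) / w := by positivity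
    linarith
  have hex : (e:ℝ) ^ (d+1) ≤ Qg ^ (((d + 2 : ℕ) : ℝ) - t) := by
    rw [← hxn]; gcongr
  have hex2 : Qg ^ (((d + 2 : ℕ) : ℝ) - t) ≤ 2 ^ (d+1) * (e:ℝ) ^ (d+1) := by
    rw [← hxn, ← mul_pow]; gcongr
  have hQ'eq : (q':ℝ) = (c:ℝ) ^ (d+2) + (e:ℝ) ^ (d+1) * (q:ℝ) ^ (d+2) := by
    rw [hq']; push_cast; ring
  have hcn : Qg ≤ (c:ℝ) ^ (d+2) := by rw [← hyn]; gcongr
  have hsec : (e:ℝ) ^ (d+1) * (q:ℝ) ^ (d+2) ≤ Qg := by
    calc (e:ℝ) ^ (d+1) * (q:ℝ) ^ (d+2) ≤ Qg ^ (((d + 2 : ℕ) : ℝ) - t) * (q:ℝ) ^ (d+2) := by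
          gcongr
      _ = (q:ℝ) ^ (g * (((d + 2 : ℕ) : ℝ) - t) + ((d+2 : ℕ) : ℝ)) := by
          rw [hQg, ← Real.rpow_mul hQ.le, ← Real.rpow_natCast (q:ℝ) (d+2), ← Real.rpow_add hQ]
      _ ≤ (q:ℝ) ^ g := by
          apply Real.rpow_le_rpow_of_exponent_le hQ1
          have h1 : g * ((((d + 2 : ℕ) : ℝ) - 1) / w) = ((d+2 : ℕ) : ℝ) := by
            rw [hg]; field_simp
          have h2 : g * (((d + 2 : ℕ) : ℝ) - t) ≤ g * (1 - (((d + 2 : ℕ) : ℝ) - 1) / w) :=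
            mul_le_mul_of_nonneg_left (by linarith) hgpos.le
          have h3 : g * (1 - (((d + 2 : ℕ) : ℝ) - 1) / w) = g - ((d+2 : ℕ) : ℝ) := by
            rw [mul_sub, h1, mul_one]
          linarith
  have hQ'lo : (c:ℝ) ^ (d+2) ≤ q' := by
    rw [hQ'eq]
    have : 0 ≤ (e:ℝ) ^ (d+1) * (q:ℝ) ^ (d+2) := by positivity
    linarith
  have hQ'up : (q':ℝ) ≤ 2 * (c:ℝ) ^ (d+2) := by
    rw [hQ'eq]; linarith
  have hcn5 : (c:ℝ) ^ (d+2) ≤ 5 ^ (d+2) * Qg := by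
    rw [← hyn, ← mul_pow]; gcongr
  have hcn1lo : (q:ℝ) ^ w ≤ (c:ℝ) ^ (d+1) := by rw [← hyn1]; gcongr
  have hcn1up : (c:ℝ) ^ (d+1) ≤ 5 ^ (d+1) * (q:ℝ) ^ w := by
    rw [← hyn1, ← mul_pow]; gcongr
  have hQw : 0 < (q:ℝ) ^ w := by positivity
  have hdiff : (p':ℝ) / q' - p / q = c / (q * q') := by
    rw [div_sub_div _ _ hQ'.ne' hQ.ne']
    have h1 : (p':ℝ) * q - q' * p = c := by
      have : p' * q - q' * p = c := by linarith
      exact_mod_cast this
    rw [h1, mul_comm (q':ℝ)]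
  have hQw1 : (q:ℝ) ^ (-(w+1)) = 1 / (q * (q:ℝ) ^ w) := by
    rw [Real.rpow_neg hQ.le, Real.rpow_add_one hQ.ne', one_div, mul_comm]
  have hC1 : (1:ℝ) ≤ 2 * 5 ^ (d+2) := by
    have : (1:ℝ) ≤ 5 ^ (d+2) := one_le_pow₀ (by norm_num)
    linarith
  have hC0 : (0:ℝ) < 2 * 5 ^ (d+2) := by positivity
  have h2pow : (1:ℝ) ≤ 2 ^ (d+2) := one_le_pow₀ (by norm_num)
  refine ⟨p', ?_⟩
  refine
    { valid := ⟨hp'0, hp'q', hcop', heq', hres⟩
      lo := hcn.trans hQ'lo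
      up := ?_
      dlo := ?_
      dup := ?_
      res := ⟨-e ^ (d+1), ?_, ?_, ?_, ?_⟩ }
  · calc (q':ℝ) ≤ 2 * (c:ℝ) ^ (d+2) := hQ'up
      _ ≤ 2 * (5 ^ (d+2) * Qg) := by gcongr
      _ = _ := by ring
  · rw [hdiff, hQw1, abs_of_pos (by positivity), div_mul_div_comm, one_mul,
      div_le_div_iff₀ (by positivity) (by positivity), one_mul]
    calc (q:ℝ) * q' ≤ q * (2 * (c:ℝ) ^ (d+2)) := by gcongr
      _ = q * (2 * (c * (c:ℝ) ^ (d+1))) := by ring
      _ ≤ q * (2 * (c * (5 ^ (d+1) * (q:ℝ) ^ w))) := by gcongr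
      _ = c * (1 * (2 * 5 ^ (d+1)) * (q * (q:ℝ) ^ w)) := by ring
      _ ≤ c * (2 ^ (d+2) * (2 * 5 ^ (d+2)) * (q * (q:ℝ) ^ w)) := by
        gcongr
        · norm_num
        · omega
  · rw [hdiff, hQw1, abs_of_pos (by positivity), mul_one_div,
      div_le_div_iff₀ (by positivity) (by positivity)]
    calc (c:ℝ) * (q * (q:ℝ) ^ w) ≤ c * (q * (c:ℝ) ^ (d+1)) := by gcongr
      _ = 1 * (q * (c:ℝ) ^ (d+2)) := by ring
      _ ≤ (2 * 5 ^ (d+2)) * (q * q') := by gcongr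
  · rw [sub_neg_eq_add]; exact hres
  · have h1 : |((-e ^ (d+1) : ℤ) : ℝ)| = (e:ℝ) ^ (d+1) := by
      push_cast; rw [abs_neg, abs_of_pos (by positivity)]
    rw [h1]
    have h2 : (q':ℝ) ≤ (2 * 5 ^ (d+2)) * Qg := by
      calc (q':ℝ) ≤ 2 * (c:ℝ) ^ (d+2) := hQ'up
        _ ≤ 2 * (5 ^ (d+2) * Qg) := by gcongr
        _ = _ := by ring
    have h3 : (q':ℝ) ^ (((d + 2 : ℕ) : ℝ) - t) ≤
        (2 * 5 ^ (d+2)) * Qg ^ (((d + 2 : ℕ) : ℝ) - t) := by
      calc (q':ℝ) ^ (((d + 2 : ℕ) : ℝ) - t)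
          ≤ ((2 * 5 ^ (d+2)) * Qg) ^ (((d + 2 : ℕ) : ℝ) - t) :=
            Real.rpow_le_rpow hQ'.le h2 hnt0
        _ = (2 * 5 ^ (d+2)) ^ (((d + 2 : ℕ) : ℝ) - t) * Qg ^ (((d + 2 : ℕ) : ℝ) - t) :=
            Real.mul_rpow hC0.le hQgpos.le
        _ ≤ (2 * 5 ^ (d+2)) * Qg ^ (((d + 2 : ℕ) : ℝ) - t) := by
            gcongr
            calc (2 * 5 ^ (d+2) : ℝ) ^ (((d + 2 : ℕ) : ℝ) - t) ≤ (2 * 5 ^ (d+2) : ℝ) ^ (1:ℝ) :=
                  Real.rpow_le_rpow_of_exponent_le hC1 hnt1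
              _ = _ := Real.rpow_one _
    have h4 : (q':ℝ) ^ (((d + 2 : ℕ) : ℝ) - t) ≤
        (2 * 5 ^ (d+2)) * (2 ^ (d+2) * (e:ℝ) ^ (d+1)) := by
      refine h3.trans ?_
      gcongr
      refine hex2.trans ?_
      gcongr
      · norm_num
      · omega
    rw [one_div_mul_eq_div, div_le_iff₀ (by positivity)]
    linarith
  · have h1 : |((-e ^ (d+1) : ℤ) : ℝ)| = (e:ℝ) ^ (d+1) := by
      push_cast; rw [abs_neg, abs_of_pos (by positivity)]
    rw [h1]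
    have h2 : Qg ^ (((d + 2 : ℕ) : ℝ) - t) ≤ (q':ℝ) ^ (((d + 2 : ℕ) : ℝ) - t) :=
      Real.rpow_le_rpow hQgpos.le (hcn.trans hQ'lo) hnt0
    have h3 : 0 ≤ (q':ℝ) ^ (((d + 2 : ℕ) : ℝ) - t) := by positivity
    nlinarith
  · have h1 : |(-e ^ (d+1) : ℤ)| = e ^ (d+1) := by
      rw [abs_neg, abs_of_pos (by positivity)]
    rw [h1, hq']
    have h2 : 2 ≤ q ^ (d+2) := by
      calc 2 ≤ q := hq2
        _ = q ^ 1 := (pow_one q).symm
        _ ≤ q ^ (d+2) := pow_le_pow_right₀ (by omega) (by omega)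
    have h3 : 0 < e ^ (d+1) := by positivity
    have h4 : 0 < c ^ (d+2) := by positivity
    nlinarith

end famB

section famB

lemma exists_pow_two {x : ℝ} (hx : 1 ≤ x) : ∃ a : ℕ, ((2 ^ a : ℤ) : ℝ) ≤ x ∧
    x ≤ 2 * ((2 ^ a : ℤ) : ℝ) := by
  have hx0 : 0 ≤ x := by linarith
  have hf : ⌊x⌋₊ ≠ 0 := by
    have : 0 < ⌊x⌋₊ := Nat.floor_pos.mpr hx
    omega
  refine ⟨Nat.log 2 ⌊x⌋₊, ?_, ?_⟩
  · have h1 : 2 ^ Nat.log 2 ⌊x⌋₊ ≤ ⌊x⌋₊ := Nat.pow_log_le_self 2 hf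
    have h2 : ((2 ^ Nat.log 2 ⌊x⌋₊ : ℕ) : ℝ) ≤ x := (Nat.le_floor_iff hx0).mp h1
    push_cast at h2 ⊢
    exact h2
  · have h1 : ⌊x⌋₊ < 2 ^ (Nat.log 2 ⌊x⌋₊ + 1) := Nat.lt_pow_succ_log_self (by norm_num) _
    have h2 : x < (⌊x⌋₊ : ℝ) + 1 := Nat.lt_floor_add_one x
    have h3 : ((⌊x⌋₊ + 1 : ℕ) : ℝ) ≤ ((2 ^ (Nat.log 2 ⌊x⌋₊ + 1) : ℕ) : ℝ) := by exact_mod_cast h1
    push_cast at h3 ⊢
    rw [pow_succ] at h3
    linarith

lemma exists_odd {p q s : ℤ} (hcop : IsCoprime p q) (hsq : IsCoprime s q) :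
    ∃ c : ℤ, Odd c ∧ q ∣ c * s - p := by
  obtain ⟨a, b, hab⟩ := hsq
  rcases Int.even_or_odd (p * a) with h | h
  · rcases Int.even_or_odd q with hq | hq
    · exfalso
      have h1 : Odd (a * s) := by
        have h2 : a * s = 1 - b * q := by linarith
        rw [h2]
        exact odd_one.sub_even (hq.mul_left b)
      have ha : Odd a := (Int.odd_mul.mp h1).1
      have hp : Odd p := by
        rcases Int.even_or_odd p with hpe | hpo
        · exfalso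
          obtain ⟨u, v, huv⟩ := hcop
          have h2 : Even (u * p + v * q) := (hpe.mul_left u).add (hq.mul_left v)
          rw [huv] at h2
          exact Int.not_even_one h2
        · exact hpo
      exact (Int.not_even_iff_odd.mpr (hp.mul ha)) h
    · refine ⟨p * a + q, h.add_odd hq, ⟨s - p * b, ?_⟩⟩
      have h2 : a * s = 1 - b * q := by linarith
      calc (p * a + q) * s - p = p * (a * s) + q * s - p := by ring
        _ = q * (s - p * b) := by rw [h2]; ring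
  · refine ⟨p * a, h, ⟨-(p * b), ?_⟩⟩
    have h2 : a * s = 1 - b * q := by linarith
    calc p * a * s - p = p * (a * s) - p := by ring
      _ = q * (-(p * b)) := by rw [h2]; ring

lemma B_step {n : ℕ} (hn : 2 ≤ n) {w t : ℝ} (hw : 2 * (n:ℝ) - 1 ≤ w)
    (ht1 : (n:ℝ) - 1 + (n - 1) / w ≤ t) (ht2 : t ≤ n) (p q s : ℤ) (hV : VB n p q s) :
    ∃ p1 q1 s1 p2 q2 s2 : ℤ, q1 ≠ q2 ∧
      Next n w (w * n / (n - 1)) t (1 / (2 ^ n * (2 * 5 ^ n))) (2 * 5 ^ n) (VB n) p q p1 q1 s1 ∧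
      Next n w (w * n / (n - 1)) t (1 / (2 ^ n * (2 * 5 ^ n))) (2 * 5 ^ n) (VB n) p q p2 q2 s2 := by
  have hV' := hV
  obtain ⟨hp, hpq, hcop, hsq, hdvd⟩ := hV
  have hn2 : (2:ℝ) ≤ n := by exact_mod_cast hn
  have hw0 : 0 < w := by linarith
  have hn1 : (0:ℝ) < n - 1 := by linarith
  have hq0 : 0 < q := by omega
  have hQ : (0:ℝ) < q := by exact_mod_cast hq0
  have hQ1 : (1:ℝ) ≤ q := by exact_mod_cast hq0
  obtain ⟨c0, hc0, hc0d⟩ := exists_odd hcop hsq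
  set y : ℝ := (q:ℝ) ^ (w / (n - 1)) with hy
  have hyq : (q:ℝ) ≤ y := by
    calc (q:ℝ) = (q:ℝ) ^ (1:ℝ) := (Real.rpow_one _).symm
      _ ≤ _ := by
        apply Real.rpow_le_rpow_of_exponent_le hQ1
        rw [le_div_iff₀ hn1]; linarith
  have hx1 : 1 ≤ ((q:ℝ) ^ (w * n / (n - 1))) ^ ((n - t) / (n - 1)) := by
    apply Real.one_le_rpow
    · apply Real.one_le_rpow hQ1; positivity
    · exact div_nonneg (by linarith) hn1.le
  obtain ⟨a, ha1, ha2⟩ := exists_pow_two hx1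
  set i : ℤ := ⌈(y - c0) / (2 * q)⌉ with hi
  have hi1 : (y - c0) / (2 * q) ≤ i := Int.le_ceil _
  have hi2 : (i:ℝ) < (y - c0) / (2 * q) + 1 := Int.ceil_lt_add_one _
  rw [div_le_iff₀ (by positivity)] at hi1
  have hi2' : ((i:ℝ) - 1) * (2 * q) < y - c0 := by
    rw [← lt_div_iff₀ (by positivity)]; linarith
  have key : ∀ l : ℤ, (i:ℝ) ≤ l → (l:ℝ) ≤ i + 1 → ∃ p',
      Next n w (w * n / (n - 1)) t (1 / (2 ^ n * (2 * 5 ^ n))) (2 * 5 ^ n) (VB n) p q
        p' ((c0 + 2 * q * l) ^ n + (2 ^ a) ^ (n-1) * q ^ n) (2 ^ a) := by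
    intro l hl1 hl2
    refine B_next hn hw ht1 ht2 hV' (hc0.add_even (by
      rw [mul_assoc]; exact even_two_mul _)) ?_ ?_ ?_ (a := a) rfl ha1 ha2
    · have h1 : (c0 + 2 * q * l) * s - p = (c0 * s - p) + q * (2 * l * s) := by ring
      rw [h1]
      exact dvd_add hc0d (Dvd.intro _ rfl)
    · push_cast
      have h1 : (i:ℝ) * (2 * q) ≤ l * (2 * q) := by gcongr
      linarith
    · push_cast
      have h1 : (l:ℝ) * (2 * q) ≤ (i + 1) * (2 * q) := by gcongr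
      linarith
  obtain ⟨p1, h1⟩ := key i le_rfl (by linarith)
  obtain ⟨p2, h2⟩ := key (i+1) (by push_cast; linarith) (by push_cast; linarith)
  refine ⟨_, _, _, _, _, _, ?_, h1, h2⟩
  intro h
  have h3 : (c0 + 2 * q * i) ^ n = (c0 + 2 * q * (i + 1)) ^ n := by linarith
  have hcpos : (0:ℝ) < ((c0 + 2 * q * i : ℤ) : ℝ) := by
    push_cast
    linarith
  have hcpos' : 0 < c0 + 2 * q * i := by exact_mod_cast hcpos
  have h4 : c0 + 2 * q * i < c0 + 2 * q * (i + 1) := by linarith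
  have h5 := pow_lt_pow_left₀ h4 hcpos'.le (by omega : n ≠ 0)
  omega

theorem famB {n : ℕ} (hn : 2 ≤ n) {w t : ℝ} (hw : 2 * (n:ℝ) + 1 / (n - 1) ≤ w)
    (ht1 : (n:ℝ) - 1 + (n - 1) / w ≤ t) (ht2 : t ≤ n) :
    ∃ (z : ℝ) (p q N : ℕ → ℤ), Transcendental ℚ z ∧
      Data n w (w * n / (n - 1)) t (1 / (2 ^ n * (2 * 5 ^ n)) / 2) (2 * (2 * 5 ^ n)) p q N z := by
  have hn2 : (2:ℝ) ≤ n := by exact_mod_cast hn
  have hn1 : (0:ℝ) < n - 1 := by linarith
  have hinv : 0 < 1 / ((n:ℝ) - 1) := by positivity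
  have hw' : 2 * (n:ℝ) - 1 ≤ w := by linarith
  have hw0 : 0 < w := by linarith
  have hg2 : 2 ≤ w * n / (n - 1) := by
    rw [le_div_iff₀ hn1]; nlinarith
  refine exists_data hn hw' hg2 ?_ ?_ ht2 (by positivity) ?_ (VB n)
    (fun p q s h => ⟨h.1, h.2.1, h.2.2.1⟩) ?_ ⟨0, fun p q s hV _ => B_step hn hw' ht1 ht2 p q s hV⟩
  · have h1 : (n:ℝ) * (w * n / (n - 1)) = w * ((n:ℝ) + 1 + 1 / (n - 1)) := by
      field_simp; ring
    rw [h1]
    have h2 : (n:ℝ) + 1 + 1 / (n - 1) ≤ w - n + 1 := by linarith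
    gcongr
  · have : 0 ≤ ((n:ℝ) - 1) / w := div_nonneg hn1.le hw0.le
    linarith
  · have : (1:ℝ) ≤ 5 ^ n := one_le_pow₀ (by norm_num)
    linarith
  · intro K
    obtain ⟨k, hk⟩ : ∃ k : ℕ, K ≤ k := exists_nat_ge K
    have hk2 : (2:ℤ) ≤ max 2 (k:ℤ) := le_max_left _ _
    set m : ℤ := max 2 (k:ℤ) with hm
    have hm0 : 0 < m := by omega
    have hmpow : m ≤ m ^ n := by
      calc m = m ^ 1 := (pow_one m).symm
        _ ≤ m ^ n := pow_le_pow_right₀ (by omega) (by omega)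
    obtain ⟨d, rfl⟩ : ∃ d, n = d + 1 := ⟨n - 1, by omega⟩
    refine ⟨m, m ^ (d+1) + 1, 1, ⟨hm0, by omega, ⟨-m ^ d, 1, by ring⟩, isCoprime_one_left, ?_⟩, ?_⟩
    · rw [one_pow]
    · have h1 : (k:ℤ) ≤ m ^ (d+1) + 1 := by
        have : (k:ℤ) ≤ m := le_max_right _ _
        omega
      exact hk.trans (by exact_mod_cast h1)

end famB

lemma Data.final {n : ℕ} {w g t c0 C0 : ℝ} {p q N : ℕ → ℤ} {z : ℝ}
    (D : Data n w g t c0 C0 p q N z) {x : ℝ} (hx : x = t / (w + 1 - t)) {A : Set ℂ}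
    (hA : ∀ r : ℝ, (r : ℂ) ∈ A) :
    InD A n w z ∧ hatInt n z = (x : EReal) ∧ hatStarInt A n z = (x : EReal) := by
  subst hx
  exact ⟨fun m h1 h2 => ⟨D.wExp_eq h1 h2, D.wStar_eq hA h1 h2⟩, D.hat_eq, D.hatStar_eq hA⟩

/-- For every `n ≥ 2`: if `w ≥ 2n + 1/(n-1)`, every `x` in the closed interval from
`(n-1)/(w-n+2)` to `n/(w-n+1)` (the two known bounds) is the common value of both uniform
exponents at some transcendental `z ∈ D_{n,w}`; if only `w ≥ 2n-1`, this holds for every `x` from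
`(n-1)/(w-n+2)` to `(n-1)/(w-n+1)`. -/
theorem result (n : ℕ) (hn : 2 ≤ n) (w x : ℝ) (hx : ((n:ℝ) - 1) / (w - n + 2) ≤ x)
    (h : (2 * (n:ℝ) - 1 ≤ w ∧ x ≤ ((n:ℝ) - 1) / (w - n + 1)) ∨
      (2 * (n:ℝ) + 1 / (n - 1) ≤ w ∧ x ≤ n / (w - n + 1))) :
    ∃ z : ℝ, Transcendental ℚ z ∧ ∀ A : Set ℂ, (∀ r : ℝ, (r : ℂ) ∈ A) →
      InD A n w z ∧ hatInt n z = (x : EReal) ∧ hatStarInt A n z = (x : EReal) := by
  have hn2 : (2:ℝ) ≤ n := by exact_mod_cast hn
  have hn1 : (0:ℝ) < n - 1 := by linarith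
  have hw' : 2 * (n:ℝ) - 1 ≤ w := by
    rcases h with h | h
    · exact h.1
    · have hinv : 0 < 1 / ((n:ℝ) - 1) := by positivity
      linarith [h.1]
  have hw0 : 0 < w := by linarith
  have hd1 : 0 < w - n + 2 := by linarith
  have hd2 : 0 < w - n + 1 := by linarith
  have hx0 : 0 < x := lt_of_lt_of_le (by positivity) hx
  have hx1 : 0 < 1 + x := by linarith
  rw [div_le_iff₀ hd1] at hx
  -- the parameter t
  set t : ℝ := x * (w + 1) / (1 + x) with ht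
  have hxt : x = t / (w + 1 - t) := by
    have h1 : w + 1 - t = (w + 1) / (1 + x) := by
      rw [ht]; field_simp; ring
    rw [h1, ht]
    field_simp
  have ht1 : (n:ℝ) - 1 ≤ t := by
    rw [ht, le_div_iff₀ hx1]; nlinarith
  by_cases hcase : x ≤ ((n:ℝ) - 1) / (w - n + 1)
  · rw [le_div_iff₀ hd2] at hcase
    set mu : ℝ := n - w * (t - (n - 1)) with hmu
    have hmu2 : mu ≤ n := by
      have : 0 ≤ w * (t - (n - 1)) := mul_nonneg hw0.le (by linarith)
      linarith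
    have hmu1 : 1 ≤ mu := by
      have h1 : w * t ≤ (n - 1) * (w + 1) := by
        rw [ht, mul_div_assoc', div_le_iff₀ hx1]
        have : 0 < w + 1 := by linarith
        nlinarith
      rw [hmu]; nlinarith
    obtain ⟨z, p, q, N, htr, D⟩ := famA hn hw' hmu1 hmu2
    have htt : (n:ℝ) - 1 + (n - mu) / w = t := by
      rw [hmu]; field_simp; ring
    rw [htt] at D
    exact ⟨z, htr, fun A hA => D.final hxt hA⟩
  · rcases h with h | h
    · exact absurd h.2 hcase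
    · obtain ⟨hw, hxu⟩ := h
      push Not at hcase
      rw [div_lt_iff₀ hd2] at hcase
      rw [le_div_iff₀ hd2] at hxu
      have ht2 : t ≤ n := by
        rw [ht, div_le_iff₀ hx1]; nlinarith
      have ht3 : (n:ℝ) - 1 + (n - 1) / w ≤ t := by
        have h1 : (n:ℝ) - 1 + (n - 1) / w = (n - 1) * (w + 1) / w := by field_simp
        rw [h1, ht, div_le_div_iff₀ hw0 hx1]
        have : 0 < w + 1 := by linarith
        nlinarith
      obtain ⟨z, p, q, N, htr, D⟩ := famB hn hw ht3 ht2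
      exact ⟨z, htr, fun A hA => D.final hxt hA⟩

end Pool.Agent.Results.MP_1639aa_nt.FullSpectrum
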